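import Pool.Agent.H38.Ang.Snd

/-!
Rigid pieces of the triangular lattice, joints and links: drawing a separated placement.
-/

namespace Pool.Agent.H38.Ang

open Complex ComplexConjugate Pool.Agent.H38.NP Pool.Agent.H38.ER Filter

noncomputable def lam (r k : ℕ) : ℂ := k + (r - 2) * ω

theorem lam_inj {r k r' k'} (h : lam r k = lam r' k') : r = r' ∧ k = k' := by
  have := lat_inj (k := k) (r := r - 2) (k' := k') (r' := r' - 2) (by simpa [lam] using h)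
  exact ⟨by exact_mod_cast sub_left_inj.1 this.2, by exact_mod_cast this.1⟩

def St (r k r' k' e : ℕ) : Prop := (e = 0 ∧ r' = r ∧ k' = k + 1) ∨ (e = 1 ∧ r' = r + 1 ∧ k' = k) ∨
  (e = 2 ∧ r' = r + 1 ∧ k = k' + 1) ∨ (e = 3 ∧ r' = r ∧ k = k' + 1) ∨
  (e = 4 ∧ r = r' + 1 ∧ k' = k) ∨ (e = 5 ∧ r = r' + 1 ∧ k' = k + 1)

theorem St.eq {r k r' k' e} (h : St r k r' k' e) : e < 6 ∧ lam r' k' - lam r k = ω ^ e := by
  have p3 : ω ^ 3 = -1 := by linear_combination (ω + 1) * ω2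
  have p4 : ω ^ 4 = -ω := by linear_combination ω * p3
  have p5 : ω ^ 5 = 1 - ω := by linear_combination ω ^ 2 * p3 - ω2
  refine ⟨by unfold St at h; omega, ?_⟩
  rcases h with ⟨rfl, rfl, rfl⟩ | ⟨rfl, rfl, rfl⟩ | ⟨rfl, rfl, rfl⟩ | ⟨rfl, rfl, rfl⟩ |
    ⟨rfl, rfl, rfl⟩ | ⟨rfl, rfl, rfl⟩ <;> simp only [lam, ω2, p3, p4, p5] <;> push_cast <;> ring

def miss (L r k e : ℕ) : Prop :=
  (r = 2 ∧ k = L + 1 ∧ e = 0) ∨ (r = 4 ∧ k = 1 ∧ e = 1) ∨ (r = 2 ∧ k = 1 ∧ e = 3)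

theorem core_spec {L} (hL : 3 ≤ L) : ∀ q ∈ core L, (q.1 < 6 ∧ q.2.1 < L + 3 ∧ q.2.2.1 < 6 ∧
    q.2.2.2 < L + 3 ∧ ¬ (q.1 = 2 ∧ 3 ≤ q.2.1 ∧ q.2.1 ≤ L) ∧
    ¬ (q.2.2.1 = 2 ∧ 3 ≤ q.2.2.2 ∧ q.2.2.2 ≤ L)) ∧ ∃ e e', St q.1 q.2.1 q.2.2.1 q.2.2.2 e ∧
    ¬ miss L q.1 q.2.1 e ∧ St q.2.2.1 q.2.2.2 q.1 q.2.1 e' ∧ ¬ miss L q.2.2.1 q.2.2.2 e' := by
  simp only [core, List.forall_mem_append, List.forall_mem_flatMap, List.forall_mem_cons,
    List.mem_range]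
  unfold St miss
  refine ⟨fun k hk => ⟨?_, ?_, ?_, ?_, ?_, ?_, ?_, ?_, by simp⟩, ?_, ?_, ?_, ?_, ?_, ?_, ?_, ?_, ?_,
    ?_, ?_, ?_, ?_, ?_, ?_, ?_, by simp⟩ <;> refine ⟨by omega, ?_⟩ <;>
  first | exact ⟨0, 3, by omega⟩ | exact ⟨1, 4, by omega⟩ | exact ⟨2, 5, by omega⟩
        | exact ⟨4, 1, by omega⟩ | exact ⟨5, 2, by omega⟩

def UqB (p : BI) : Prop := (∀ j ∈ p.2.2.1, ∀ j' ∈ p.2.2.1, (j.1 = j'.1 → j.2.1 = j'.2.1 → j = j') ∧
  ¬ (j.1 = j'.2.2.1 ∧ j.2.1 = j'.2.2.2)) ∧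
    ∀ l ∈ p.2.2.2, ∀ l' ∈ p.2.2.2, l.1 = l'.1 ∨ l.2.1 = l'.2.1 → l = l'

def SB (p : BI) : Prop := ∃ a b : ℕ → ℂ, (∀ i < p.1, Cone (b i) ∧ b i ≠ 0) ∧
  (∀ j ∈ p.2.2.1, a j.1 + j.2.1 * b j.1 = a j.2.2.1 + j.2.2.2 * b j.2.2.1) ∧
  (∀ l ∈ p.2.2.2, ∃ s t : ℝ, 0 < s ∧ 0 < t ∧
    a l.2.1 + b l.2.1 - (a l.1 + cond l.2.2 (lam 4 1) (lam 2 (p.2.1 + 1)) * b l.1) =
      s * cond l.2.2 ω 1 * b l.1 ∧ t * b l.2.1 = s * cond l.2.2 ω 1 * b l.1) ∧
  ∀ i < p.1, ∀ i' < p.1, ∀ r < 6, ∀ r' < 6, ∀ k < p.2.1 + 3, ∀ k' < p.2.1 + 3,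
    a i + lam r k * b i = a i' + lam r' k' * b i' → (i = i' ∧ r = r' ∧ k = k') ∨
      (r = 2 ∧ r' = 2 ∧ ((i, k, i', k') ∈ p.2.2.1 ∨ (i', k', i, k) ∈ p.2.2.1))

theorem lin_ev {a b : ℂ} (h : a ≠ 0 ∨ b ≠ 0) : ∀ᶠ t : ℝ in cofinite, a + t * b ≠ 0 := by
  by_cases hb : b = 0
  · simp [hb, h.resolve_right (not_not.2 hb)]
  · refine (Set.finite_singleton (-a / b).re).subset fun t ht => ?_
    simp only [Set.mem_compl_iff, Set.mem_ofPred_eq, not_not] at ht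
    rw [show -a / b = t by field_simp; linear_combination -ht]; simp

theorem move (N : ℕ) (D : ℕ → Prop) (y : ℕ → ℂ)
    (h : ∀ u < N, ∀ v < N, ¬ D u → ¬ D v → u ≠ v → y u ≠ y v) :
    ∃ x : ℕ → ℂ, (∀ u, ¬ D u → x u = y u) ∧ ∀ u < N, ∀ v < N, u ≠ v → x u ≠ x v := by
  classical
  obtain ⟨t, ht⟩ := (ev_lt fun u hu => ev_lt fun v hv => (show ∀ᶠ t : ℝ in cofinite, u ≠ v →
      y u - y v + t * ((if D u then (u : ℂ) + 1 else 0) - if D v then (v : ℂ) + 1 else 0) ≠ 0 from by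
    by_cases e : u = v
    · simp [e]
    refine (lin_ev ?_).mono fun _ h _ => h
    by_cases a : D u <;> by_cases b : D v <;> simp [a, b, e, sub_ne_zero]
    · exact .inr (by exact_mod_cast u.succ_ne_zero)
    · exact .inr fun h => (Nat.cast_add_one_ne_zero v : (v : ℂ) + 1 ≠ 0) (by linear_combination -h)
    · exact h u hu v hv a b e)).exists
  exact ⟨fun u => y u + t * if D u then (u : ℂ) + 1 else 0, fun u h => by simp [h],
    fun u hu v hv e k => ht u hu v hv e (by linear_combination k)⟩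

def CL (n L : ℕ) (J : List Q4) (K : List (ℕ × ℕ × Bool)) (x b : ℕ → ℂ) (u v : ℕ) : Prop :=
  ∃ i < n, ∃ r < 6, ∃ k < L + 3, ∃ e < 6,
      u = vid L i r k ∧ ((x v - x u = ω ^ e * b i ∧ ¬ miss L r k e ∧
        (r = 2 → 3 ≤ k → k ≤ L → e = 1 ∨ e = 2)) ∨
      (∃ l ∈ K, ∃ s : ℝ, 0 < s ∧ x v - x u = s * ω ^ e * b i ∧ miss L r k e ∧
        ((i = l.1 ∧ e ≠ 3 ∧ v = vid L l.2.1 2 1) ∨ (i = l.2.1 ∧ e = 3 ∧
          v = cond l.2.2 (vid L l.1 4 1) (vid L l.1 2 (L + 1))))) ∨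
      (r = 2 ∧ (e = 4 ∨ e = 5) ∧ ∃ i' k', (i, k, i', k') ∈ J ∧ x v - x u = ω ^ e * b i'))

theorem grB_c {p : BI} (hb : BdB p) (hu : UqB p) (h : SB p) : ∃ x, Dr (grB p) x := by
  have g := grB_graph hb
  obtain ⟨n, L, J, K⟩ := p
  obtain ⟨h1, h2, h3⟩ := hb
  obtain ⟨u1, u2⟩ := hu
  obtain ⟨a, b, c1, c2, c3, c4⟩ := h
  simp only at h1 h2 h3 u1 u2 c1 c2 c3 c4
  let y : ℕ → ℂ := fun v => a (v / (L + 3) / 6) + lam (v / (L + 3) % 6) (v % (L + 3)) *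
    b (v / (L + 3) / 6)
  have hy : ∀ i r k, r < 6 → k < L + 3 → y (vid L i r k) = a i + lam r k * b i := fun i r k hr hk => by
    simp only [y, vid, mul_comm _ (L + 3), Nat.mul_add_div (show L + 3 > 0 by omega),
      Nat.mul_add_mod, Nat.div_eq_of_lt hk, Nat.mod_eq_of_lt hk, add_zero]
    rw [show (i * 6 + r) / 6 = i by omega, show (i * 6 + r) % 6 = r by omega]
  let D : ℕ → Prop := fun v => ∃ j ∈ J, v = vid L j.2.2.1 2 j.2.2.2
  have nD : ∀ i r k, r < 6 → k < L + 3 → ¬ (r = 2 ∧ 3 ≤ k ∧ k ≤ L) → ¬ D (vid L i r k) := by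
    rintro i r k hr hk h ⟨j, hj, e⟩
    have := h2 j hj
    rw [vid_inj hr (by omega) hk (by omega)] at e; omega
  obtain ⟨x, hx, inj⟩ := move (n * 6 * (L + 3)) D y fun u hu v hv du dv huv e => by
    have dec : ∀ u < n * 6 * (L + 3), ∃ i < n, ∃ r < 6, ∃ k < L + 3, u = vid L i r k :=
      fun u hu => ⟨u / (L + 3) / 6, Nat.div_lt_of_lt_mul (Nat.div_lt_of_lt_mul (by linarith)),
        u / (L + 3) % 6, by omega, u % (L + 3), Nat.mod_lt _ (by omega), by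
          rw [vid, Nat.div_add_mod', Nat.div_add_mod']⟩
    obtain ⟨i, hi, r, hr, k, hk, rfl⟩ := dec u hu
    obtain ⟨i', hi', r', hr', k', hk', rfl⟩ := dec v hv
    rw [hy _ _ _ hr hk, hy _ _ _ hr' hk'] at e
    rcases c4 _ hi _ hi' _ hr _ hr' _ hk _ hk' e with ⟨rfl, rfl, rfl⟩ | ⟨rfl, rfl, h | h⟩
    exacts [huv rfl, dv ⟨_, h, rfl⟩, du ⟨_, h, rfl⟩]
  have hx' : ∀ i r k, r < 6 → k < L + 3 → ¬ (r = 2 ∧ 3 ≤ k ∧ k ≤ L) →
      x (vid L i r k) = a i + lam r k * b i := fun i r k hr hk h => by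
    rw [hx _ (nD i r k hr hk h), hy _ _ _ hr hk]
  have cl : ∀ u v, Adj (edB (n, L, J, K)) u v → CL n L J K x b u v := by
    have own : ∀ {i r k r' k' e u v}, i < n → r < 6 → k < L + 3 → St r k r' k' e →
        u = vid L i r k → x u = a i + lam r k * b i → x v = a i + lam r' k' * b i →
        ¬ miss L r k e → (r = 2 → 3 ≤ k → k ≤ L → e = 1 ∨ e = 2) → CL n L J K x b u v :=
      fun {i r k r' k' e u v} hi hr hk st e1 e2 e3 m1 m2 =>
        ⟨i, hi, r, hr, k, hk, e, st.eq.1, e1, .inl ⟨by rw [e2, e3, ← st.eq.2]; ring, m1, m2⟩⟩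
    intro u v h
    have key : ∀ e ∈ edB (n, L, J, K), (e = (u, v) ∨ e = (v, u)) → CL n L J K x b u v := by
      simp only [edB, List.forall_mem_append, List.forall_mem_flatMap, List.forall_mem_map,
        List.forall_mem_cons, List.mem_range, Prod.mk.injEq]
      refine ⟨⟨fun i hi q hq => ?_, fun j hj => ?_⟩, fun l hl => ?_⟩
      · obtain ⟨⟨q1, q2, q3, q4, q5, q6⟩, e, e', s1, m1, s2, m2⟩ := core_spec h1 q hq
        rintro (⟨rfl, rfl⟩ | ⟨rfl, rfl⟩)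
        · exact own hi q1 q2 s1 rfl (hx' _ _ _ q1 q2 q5) (hx' _ _ _ q3 q4 q6) m1 (by omega)
        · exact own hi q3 q4 s2 rfl (hx' _ _ _ q3 q4 q6) (hx' _ _ _ q1 q2 q5) m2 (by omega)
      · obtain ⟨j1, j2, j3, j4, j5, j6⟩ := h2 j hj
        have t1 : x (vid L j.1 2 j.2.1) = a j.1 + lam 2 j.2.1 * b j.1 := by
          rw [hx, hy _ _ _ (by omega) (by omega)]
          rintro ⟨j', hj', e⟩
          have := h2 j' hj'
          rw [vid_inj (by omega) (by omega) (by omega) (by omega)] at e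
          exact (u1 j hj j' hj').2 ⟨e.1, e.2.2⟩
        have t2 : x (vid L j.1 2 j.2.1) = a j.2.2.1 + lam 2 j.2.2.2 * b j.2.2.1 := by
          rw [t1]; simpa [lam] using c2 j hj
        refine ⟨?_, ?_, ?_, ?_, by simp⟩ <;> rintro (⟨rfl, rfl⟩ | ⟨rfl, rfl⟩)
        · exact own (e := 1) j1 (by omega) (by omega) (by unfold St; omega) rfl t1
            (hx' _ 3 _ (by omega) (by omega) (by omega)) (by unfold miss; omega) (by omega)
        · exact own (e := 4) j1 (by omega) (by omega) (by unfold St; omega) rfl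
            (hx' _ 3 _ (by omega) (by omega) (by omega)) t1 (by unfold miss; omega) (by omega)
        · exact own (e := 2) j1 (by omega) (by omega) (by unfold St; omega) rfl t1
            (hx' _ 3 _ (by omega) (by omega) (by omega)) (by unfold miss; omega) (by omega)
        · exact own (e := 5) j1 (by omega) (by omega) (by unfold St; omega) rfl
            (hx' _ 3 _ (by omega) (by omega) (by omega)) t1 (by unfold miss; omega) (by omega)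
        · refine ⟨_, j1, 2, by omega, _, by omega, 4, by omega, rfl, .inr (.inr ⟨rfl, .inl rfl,
            _, _, hj, ?_⟩)⟩
          rw [t2, hx' _ 1 _ (by omega) (by omega) (by omega),
            ← (show St 2 j.2.2.2 1 j.2.2.2 4 by unfold St; omega).eq.2]; ring
        · exact own (e := 1) j2 (by omega) (by omega) (by unfold St; omega) rfl
            (hx' _ 1 _ (by omega) (by omega) (by omega)) t2 (by unfold miss; omega) (by omega)
        · refine ⟨_, j1, 2, by omega, _, by omega, 5, by omega, rfl, .inr (.inr ⟨rfl, .inr rfl,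
            _, _, hj, ?_⟩)⟩
          rw [t2, hx' _ 1 _ (by omega) (by omega) (by omega),
            ← (show St 2 j.2.2.2 1 (j.2.2.2 + 1) 5 by unfold St; omega).eq.2]; ring
        · exact own (e := 2) j2 (by omega) (by omega) (by unfold St; omega) rfl
            (hx' _ 1 _ (by omega) (by omega) (by omega)) t2 (by unfold miss; omega) (by omega)
      · obtain ⟨l1, l2, -⟩ := h3 l hl
        obtain ⟨s, t, hs, ht, e1, e2⟩ := c3 l hl
        have p3 : ω ^ 3 = -1 := by linear_combination (ω + 1) * ω2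
        have t1 : x (vid L l.2.1 2 1) = a l.2.1 + b l.2.1 := by
          rw [hx' _ _ _ (by omega) (by omega) (by omega)]; simp [lam]
        have t2 : x (cond l.2.2 (vid L l.1 4 1) (vid L l.1 2 (L + 1))) =
            a l.1 + cond l.2.2 (lam 4 1) (lam 2 (L + 1)) * b l.1 := by
          cases l.2.2 <;> exact hx' _ _ _ (by omega) (by omega) (by omega)
        rintro (⟨rfl, rfl⟩ | ⟨rfl, rfl⟩)
        · refine ⟨_, l1, cond l.2.2 4 2, ?_, cond l.2.2 1 (L + 1), ?_, cond l.2.2 1 0, ?_, ?_,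
            .inr (.inl ⟨l, hl, s, hs, ?_, ?_, .inl ⟨rfl, ?_, rfl⟩⟩)⟩
          rotate_left 4
          · rw [t1, t2, e1]; cases l.2.2 <;> simp
          all_goals cases l.2.2 <;> simp [miss]
        · exact ⟨_, l2, 2, by omega, 1, by omega, 3, by omega, rfl, .inr (.inl ⟨l, hl, t, ht, by
            rw [t1, t2, p3]; linear_combination -e1 + e2, by simp [miss], .inr ⟨rfl, rfl, rfl⟩⟩)⟩
    exact h.elim (fun h => key _ h (.inl rfl)) fun h => key _ h (.inr rfl)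
  refine ⟨x, inj, fun u v w a1 a2 hvw => ?_⟩
  have ne : x v - x u ≠ x w - x u := fun e =>
    inj _ (g.adj a1).2.1 _ (g.adj a2).2.1 hvw (sub_left_inj.1 e)
  obtain ⟨i, hi, r, hr, k, hk, e, he, rfl, A⟩ := cl _ _ a1
  obtain ⟨i', -, r', hr', k', hk', e', he', E, B⟩ := cl _ _ a2
  obtain ⟨rfl, rfl, rfl⟩ := (vid_inj hr hr' hk hk').1 E
  have gg : ∀ {s t : ℝ} {z}, 0 < s → 0 < t → e ≠ e' → G (s * ω ^ e * z) (t * ω ^ e' * z) :=
    fun hs ht h => (Gω he he' h).mul _ hs.le ht.le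
  have g1 : ∀ {t : ℝ} {z}, 0 < t → e ≠ e' → G (ω ^ e * z) (t * ω ^ e' * z) := fun ht h => by
    simpa using gg one_pos ht h
  have g2 : ∀ {t : ℝ} {z}, 0 < t → e ≠ e' → G (t * ω ^ e * z) (ω ^ e' * z) := fun ht h => by
    simpa using gg ht one_pos h
  have g3 : ∀ {z}, e ≠ e' → G (ω ^ e * z) (ω ^ e' * z) := fun h => by simpa using g1 one_pos h
  rcases A with ⟨A, m1, m2⟩ | ⟨l, hl, s, hs, A, m1, m2⟩ | ⟨rfl, m1, i1, k1, m2, A⟩ <;>
    rcases B with ⟨B, n1, n2⟩ | ⟨l', hl', s', hs', B, n1, n2⟩ | ⟨r2, n1, i2, k2, n2, B⟩ <;>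
    rw [A, B] at ne ⊢
  · exact g3 (by rintro rfl; exact ne rfl)
  · exact g1 hs' (by rintro rfl; exact m1 n1)
  · have := h2 _ n2
    exact Gcone (c1 _ hi).1 (c1 _ this.2.1).1 (m2 r2 this.2.2.1 this.2.2.2.1) n1
  · exact g2 hs (by rintro rfl; exact n1 m1)
  · refine gg hs hs' ?_
    rintro rfl
    rcases m2 with ⟨z1, z2, z3⟩ | ⟨z1, z2, z3⟩ <;> rcases n2 with ⟨b1, b2, b3⟩ | ⟨b1, b2, b3⟩
    · exact hvw (by rw [z3, b3, u2 l hl l' hl' (.inl (z1.symm.trans b1))])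
    · exact z2 b2
    · exact b2 z2
    · exact hvw (by rw [z3, b3, u2 l hl l' hl' (.inr (z1.symm.trans b1))])
  · have := h2 _ n2; unfold miss at m1; simp only at this; omega
  · have := h2 _ m2
    exact (Gcone (c1 _ hi).1 (c1 _ this.2.1).1 (n2 rfl this.2.2.1 this.2.2.2.1) m1).symm
  · have := h2 _ m2; unfold miss at n1; simp only at this; omega
  · obtain ⟨rfl, -⟩ : i1 = i2 ∧ k1 = k2 := by simpa using (u1 _ m2 _ n2).1 rfl rfl
    exact g3 (by rintro rfl; exact ne rfl)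

end Pool.Agent.H38.Ang
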