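import Pool.Agent.H38.ER.Defs

/-!
Straight-line drawings with prescribed angular resolution.
-/

namespace Pool.Agent.H38.Ang

open Pool.Agent.H38.NP Pool.Agent.H38.ER

/-- `(n, E)` describes a simple graph on the vertices `0, …, n - 1` with edge list `E`. -/
def IsGraph (p : ℕ × List (ℕ × ℕ)) : Prop := ∀ e ∈ p.2, e.1 < p.1 ∧ e.2 < p.1 ∧ e.1 ≠ e.2

/-- Adjacency given by an edge list. -/
def Adj (E : List (ℕ × ℕ)) (u v : ℕ) : Prop := (u, v) ∈ E ∨ (v, u) ∈ E

/-- The vertices can be placed at distinct points of the Euclidean plane `ℂ` so that any two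
different straight edges at a common vertex form an angle of at least `α`. -/
def HasAR (α : ℝ) (p : ℕ × List (ℕ × ℕ)) : Prop :=
  ∃ x : ℕ → ℂ, (∀ u < p.1, ∀ v < p.1, u ≠ v → x u ≠ x v) ∧
    ∀ u v w, Adj p.2 u v → Adj p.2 u w → v ≠ w → α ≤ EuclideanGeometry.angle (x v) (x u) (x w)

/-- The language `A` is complete for the existential theory of the reals under polynomial-time
many-one reductions. -/
def ERComplete (A : Set (List Bool)) : Prop := Reduces A (lang ETR) ∧ Reduces (lang ETR) A

end Pool.Agent.H38.Ang
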