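import Pool.Agent.H38.Ang.Top
import Pool.Agent.H38.ER.FmPT

/-!
Angular resolution a third of pi: hardness and membership.
-/

namespace Pool.Agent.H38.Ang

open Complex ComplexConjugate Pool.Agent.H38.NP Pool.Agent.H38.ER

def top (p : ℕ × List Q4) : ℕ × List Q4 := (3 + 3 * p.1 + 3 * p.2.length,
  [(0, 1, 2, 0), (0, 1, 0, 2)] ++ ((List.range p.1).flatMap fun i =>
    [(3 + 3 * i, 4 + 3 * i, 5 + 3 * i, 0), (0, 3 + 3 * i, 0, 1), (1, 4 + 3 * i, 0, 1),
      (2, 5 + 3 * i, 0, 1)]) ++ (List.range p.2.length).flatMap fun t =>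
    [(3 + 3 * p.1 + 3 * t, 4 + 3 * (p.2.getD t (0, 0, 0, 0)).2.2.1,
        4 + 3 * (p.2.getD t (0, 0, 0, 0)).2.2.2, 0),
      (3 + 3 * (p.2.getD t (0, 0, 0, 0)).2.1, 3 + 3 * p.1 + 3 * t, 4 + 3 * p.1 + 3 * t, 0),
      (0, 4 + 3 * (p.2.getD t (0, 0, 0, 0)).1, 5 + 3 * p.1 + 3 * t, 0),
      (4 + 3 * p.1 + 3 * t, 5 + 3 * p.1 + 3 * t, 0, 1)])

variable {n : ℕ} {c : List Q4}

theorem top_bd (h : Bd n c) : BdA (top (n, c)) := by
  simp only [BdA, top, List.forall_mem_append, List.forall_mem_flatMap, List.forall_mem_cons,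
    List.mem_range, List.not_mem_nil, false_imp_iff, implies_true, and_true]
  refine ⟨⟨by omega, fun i hi => by omega⟩, fun t ht => ?_⟩
  have := h _ (getD_mem ht); omega

theorem top_s (h0 : 0 < n) (hb : Bd n c) (h : WA (top (n, c))) : NZ (n, c) := by
  obtain ⟨v, hv, h⟩ := h
  simp only [top, List.forall_mem_append, List.forall_mem_flatMap, List.forall_mem_cons,
    List.mem_range, List.not_mem_nil, false_imp_iff, implies_true, and_true, true_imp_iff, ne_eq,
    not_true, one_ne_zero, not_false_iff, true_and, iff_false, iff_true, OfNat.ofNat_ne_zero,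
    OfNat.one_ne_ofNat] at hv h
  obtain ⟨⟨⟨a, r⟩, h1⟩, h2⟩ := h
  have ind : ∀ x y x' y' : ℝ, x * v 0 + y * v 1 = x' * v 0 + y' * v 1 → x = x' ∧ y = y' :=
    fun x y x' y' e => by
      have k := congrArg (fun z => (z * conj (v 0)).im) e
      simp only [add_mul, mul_assoc, add_im, im_ofReal_mul, mul_conj, ofReal_im] at k
      obtain rfl : y = y' := mul_right_cancel₀ r (by linear_combination k)
      exact ⟨ofReal_injective (mul_right_cancel₀ (hv 0 (by omega)) (add_right_cancel e)), rfl⟩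
  have : ∀ i < n, ∃ u : ℝ, v (3 + 3 * i) = u * v 0 ∧ v (4 + 3 * i) = u * v 1 := fun i hi => by
    obtain ⟨b, b1, b2, b3⟩ := h1 i hi
    obtain ⟨x, hx⟩ := par_of (hv 0 (by omega)) b1
    obtain ⟨y, hy⟩ := par_of (hv 1 (by omega)) b2
    obtain ⟨z, hz⟩ := par_of (hv 2 (by omega)) b3
    obtain ⟨rfl, rfl⟩ := ind x y z z (by linear_combination b - hx - hy + hz - z * a)
    exact ⟨_, hx, hy⟩
  choose! u u1 u2 using this
  refine ⟨u, fun e => hv (3 + 3 * 0) (by omega) (by simp [u1 0 h0, e]), fun q hq => ?_⟩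
  simp only at hq
  obtain ⟨t, ht, et⟩ := List.getElem_of_mem hq
  obtain ⟨b1, b2, b3, b4⟩ := h2 t ht
  obtain ⟨c1, c2, c3, c4⟩ := hb _ hq
  rw [List.getD_eq_getElem _ _ ht, et] at b1 b2 b3
  obtain ⟨ρ, e⟩ := par_of (hv _ (by omega)) b4
  rw [u2 _ c3, u2 _ c4] at b1
  rw [u1 _ c2] at b2
  rw [u2 _ c1] at b3
  obtain ⟨k1, k2⟩ := ind 1 (u q.1) (ρ * u q.2.1) (ρ * (u q.2.2.2 - u q.2.2.1)) (by
    push_cast; linear_combination b3 + e - ρ * b2 + ρ * b1)
  linear_combination u q.2.1 * k2 - (u q.2.2.2 - u q.2.2.1) * k1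

theorem top_c (hb : Bd n c) {u : ℕ → ℝ} (hu : ∀ i, 1 < u i) (hs : Sat u c) : SA0 (top (n, c)) := by
  let v : ℕ → ℂ := fun j => if j < 3 + 3 * n then (if j < 3 then 1 else u (j / 3 - 1) : ℝ) *
      (if j % 3 = 0 then 1 else if j % 3 = 1 then ω else 1 + ω) else
    (if j % 3 = 2 then 1 else u (c.getD (j / 3 - 1 - n) (0, 0, 0, 0)).2.1 : ℝ) *
      ((if j % 3 = 0 then 0 else 1) + u (c.getD (j / 3 - 1 - n) (0, 0, 0, 0)).1 * ω)
  have p : ∀ i, 0 < u i := fun i => by linarith [hu i]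
  have v0 : v 0 = 1 := by simp [v]
  have v1 : v 1 = ω := by simp [v, show 1 < 3 + 3 * n by omega]
  have v2 : v 2 = 1 + ω := by simp [v, show 2 < 3 + 3 * n by omega]
  have x : ∀ i < n, v (3 + 3 * i) = u i ∧ v (4 + 3 * i) = u i * ω ∧ v (5 + 3 * i) = u i * (1 + ω) :=
    fun i hi => by
      simp (disch := omega) only [v, if_pos, if_neg, show (3 + 3 * i) / 3 - 1 = i by omega,
        show (4 + 3 * i) / 3 - 1 = i by omega, show (5 + 3 * i) / 3 - 1 = i by omega, mul_one, and_self]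
  have y : ∀ t q, q = c.getD t (0, 0, 0, 0) → v (3 + 3 * n + 3 * t) = u q.2.1 * (0 + u q.1 * ω) ∧
      v (4 + 3 * n + 3 * t) = u q.2.1 * (1 + u q.1 * ω) ∧
      v (5 + 3 * n + 3 * t) = (1 : ℝ) * (1 + u q.1 * ω) := by
    rintro t q rfl
    simp (disch := omega) only [v, if_pos, if_neg, show (3 + 3 * n + 3 * t) / 3 - 1 - n = t by omega,
      show (4 + 3 * n + 3 * t) / 3 - 1 - n = t by omega,
      show (5 + 3 * n + 3 * t) / 3 - 1 - n = t by omega, and_self]
  refine ⟨v, fun j _ => ?_, ?_⟩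
  · have k : ∀ r s t : ℝ, 0 < r → 0 ≤ s → 0 ≤ t → 0 < s + t → ∀ z : ℂ, z = s + t * ω →
        Cone (r * z) ∧ r * z ≠ 0 := by
      rintro r s t hr hs ht h z rfl
      refine ⟨Cone.smul ⟨s, t, hs, ht, rfl⟩ hr.le, mul_ne_zero (ofReal_ne_zero.2 hr.ne') fun e => ?_⟩
      have := lat_inj (k' := 0) (r' := 0) (e.trans (by simp))
      linarith
    simp only [v]
    generalize c.getD _ (0, 0, 0, 0) = q
    have := p q.1
    have := p q.2.1
    have := p (j / 3 - 1)
    split_ifs <;> first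
      | (refine k _ 1 0 (by positivity) (by positivity) le_rfl (by positivity) _ ?_; simp; done)
      | (refine k _ 0 1 (by positivity) le_rfl (by positivity) (by positivity) _ ?_; simp; done)
      | (refine k _ 1 1 (by positivity) zero_le_one zero_le_one (by positivity) _ ?_; simp; done)
      | (refine k _ 0 (u q.1) (by positivity) le_rfl (by positivity) (by positivity) _ ?_; simp; done)
      | (refine k _ 1 (u q.1) (by positivity) zero_le_one (by positivity) (by positivity) _ ?_; simp)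
  simp only [top, List.forall_mem_append, List.forall_mem_flatMap, List.forall_mem_cons,
    List.mem_range, List.not_mem_nil, false_imp_iff, implies_true, and_true, true_imp_iff, ne_eq,
    not_true, one_ne_zero, not_false_iff, true_and, OfNat.ofNat_ne_zero,
    OfNat.one_ne_ofNat, decide_true, decide_false, cond_true, cond_false, v0, v1, v2]
  refine ⟨⟨⟨1, one_pos, by simp⟩, fun i hi => ?_⟩, fun t ht => ?_⟩
  · obtain ⟨x1, x2, x3⟩ := x i hi
    have := ofReal_ne_zero.2 (p i).ne'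
    rw [x1, x2, x3]
    refine ⟨by ring, ?_, ?_, ?_⟩ <;> exact ⟨(u i)⁻¹, inv_pos.2 (p i), by push_cast; field_simp⟩
  · obtain ⟨y1, y2, y3⟩ := y t _ rfl
    obtain ⟨b1, b2, b3, b4⟩ := hb _ (getD_mem ht)
    have := congrArg ofReal (hs _ (getD_mem ht))
    rw [y1, y2, y3, (x _ b1).2.1, (x _ b2).1, (x _ b3).2.1, (x _ b4).2.1]
    push_cast at this ⊢
    exact ⟨by linear_combination ω * this, by ring, by ring, _, p (c.getD t (0, 0, 0, 0)).2.1, by ring⟩

theorem ar_erh : ERH (fun _ => True) fun p => IsGraph p ∧ HasAR (Real.pi / 3) p := by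
  refine pf_erh.reduce (fun p => grB (toB (rnd (top p)))) ?_ ?_
  · have : PT grB := by unfold grB edB vid core; fun_prop
    have := pt_toB
    have : PT rnd := by unfold rnd; fun_prop
    have : PT top := by unfold top; fun_prop
    fun_prop
  rintro ⟨n, c⟩ ⟨h0, hb, hp⟩
  have b1 := top_bd hb
  have b2 := rnd_bd b1
  obtain ⟨b3, b4⟩ := toB_bd b2
  have g := grB_graph b3
  refine ⟨trivial, fun h => ⟨g, (ar_iff g).2 ?_⟩, fun h => ?_⟩
  · obtain ⟨u, hu, hs⟩ := hp h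
    exact grB_c b3 b4 (toB_c b2 (rnd_c b1 (top_c hb hu hs)))
  · obtain ⟨x, hx⟩ := (ar_iff g).1 h.2
    exact top_s h0 hb (rnd_s (toB_s b2 (grB_s b3 hx)))

def dif (a b : ℕ) : Tm := (Tm.var a).add (Tm.var b).neg

def dot (u v w : ℕ) : Tm := ((dif (2 * v) (2 * u)).mul (dif (2 * w) (2 * u))).add
  ((dif (2 * v + 1) (2 * u + 1)).mul (dif (2 * w + 1) (2 * u + 1)))

def tF : Fm := .eq (.num 0) (.num 0)

def arF (p : ℕ × List (ℕ × ℕ)) : Fm :=
  if p.2.all fun e => decide (e.1 < p.1) && decide (e.2 < p.1) && e.1 != e.2 then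
    allF ((List.range p.1).flatMap fun u => (List.range p.1).flatMap fun v =>
      (if u = v then tF else (Fm.eq (dot u v v) (.num 0)).not) :: (List.range p.1).map fun w =>
        if ((u, v) ∈ p.2 ∨ (v, u) ∈ p.2) ∧ ((u, w) ∈ p.2 ∨ (w, u) ∈ p.2) ∧ v ≠ w then
          (Fm.lt (.num 0) (dot u v w)).not.or (Fm.lt ((dot u v v).mul (dot u w w))
            ((Tm.num 4).mul ((dot u v w).mul (dot u v w)))).not else tF)
  else tF.not

theorem G_iff (p q : ℂ) : G p q ↔ p.re * q.re + p.im * q.im ≤ 0 ∨ 4 * ((p.re * q.re + p.im * q.im) *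
    (p.re * q.re + p.im * q.im)) ≤ (p.re * p.re + p.im * p.im) * (q.re * q.re + q.im * q.im) := by
  have h : (p.re * p.re + p.im * p.im) * (q.re * q.re + q.im * q.im) = (‖p‖ * ‖q‖) ^ 2 := by
    rw [mul_pow, nsq, nsq]; ring
  have k : (p * conj q).re = p.re * q.re + p.im * q.im := by simp
  have : 0 ≤ ‖p‖ * ‖q‖ := by positivity
  rw [G, h, k]
  generalize p.re * q.re + p.im * q.im = B
  refine ⟨fun h => (le_or_gt B 0).imp_right fun _ => by nlinarith, fun h => ?_⟩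
  rcases h with h | h
  · linarith
  · exact le_of_sq_le_sq_aux h this
where le_of_sq_le_sq_aux {B N : ℝ} (h : 4 * (B * B) ≤ N ^ 2) (hN : 0 ≤ N) : 2 * B ≤ N :=
  (abs_le_of_sq_le_sq' (by linarith) hN).2

theorem ar_mem : Reduces (lang fun p => IsGraph p ∧ HasAR (Real.pi / 3) p) (lang ETR) := by
  refine reduces_etr arF (by unfold arF dot dif tF; fun_prop) fun p => ?_
  have t : ∀ x, tF.Holds x := fun _ => rfl
  by_cases g : IsGraph p
  swap
  · rw [arF, if_neg (by simpa [IsGraph, and_assoc] using g)]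
    exact iff_of_false (fun h => g h.1) fun ⟨x, h⟩ => h (t x)
  rw [arF, if_pos (by simpa [IsGraph, and_assoc] using g), and_iff_right g, ar_iff g]
  have key : ∀ (x : ℕ → ℝ) (y : ℕ → ℂ), (∀ u, y u = ⟨x (2 * u), x (2 * u + 1)⟩) → (Dr p y ↔
      ∀ u < p.1, ∀ v < p.1, (u ≠ v → (dot u v v).ev x ≠ 0) ∧ ∀ w < p.1, Adj p.2 u v ∧ Adj p.2 u w ∧
        v ≠ w → (dot u v w).ev x ≤ 0 ∨ 4 * ((dot u v w).ev x * (dot u v w).ev x) ≤
          (dot u v v).ev x * (dot u w w).ev x) := fun x y hy => by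
    have d : ∀ u v w, (dot u v w).ev x = (y v - y u).re * (y w - y u).re +
        (y v - y u).im * (y w - y u).im := fun u v w => by simp [dot, dif, Tm.ev, hy, sub_eq_add_neg]
    simp only [d, ← G_iff]
    simp only [← normSq_apply, ne_eq, normSq_eq_zero, sub_eq_zero]
    exact ⟨fun h u hu v hv => ⟨fun e => h.1 v hv u hu (Ne.symm e), fun w _ k =>
      h.2 u v w k.1 k.2.1 k.2.2⟩, fun h => ⟨fun u hu v hv e => (h v hv u hu).1 (Ne.symm e),
      fun u v w a b e => (h u (g.adj a).1 v (g.adj a).2.1).2 w (g.adj b).2.1 ⟨a, b, e⟩⟩⟩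
  simp only [ETR, holds_allF, List.forall_mem_flatMap, List.forall_mem_cons, List.forall_mem_map,
    List.mem_range, apply_ite (Fm.Holds _), t, Fm.Holds, Tm.ev, Nat.cast_zero, Nat.cast_ofNat,
    not_lt, if_true_left, if_true_right]
  exact ⟨fun ⟨y, h⟩ => ⟨fun i => if i % 2 = 0 then (y (i / 2)).re else (y (i / 2)).im,
    (key _ y fun u => by simp [show (2 * u + 1) / 2 = u by omega]).1 h⟩,
    fun ⟨x, h⟩ => ⟨_, (key x _ fun _ => rfl).2 h⟩⟩

theorem ar_complete : ERComplete (lang fun p => IsGraph p ∧ HasAR (Real.pi / 3) p) :=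
  ⟨ar_mem, let ⟨f, hf, h⟩ := ar_erh.hardOn
    ⟨f, hf, fun x => let ⟨_, e, _, k⟩ := h x; by rw [e, enc_mem_lang, k]⟩⟩

end Pool.Agent.H38.Ang
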