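import Pool.Agent.H38.Ang.Defs

/-!
Angles of at least sixty degrees.
-/

namespace Pool.Agent.H38.Ang

open Complex ComplexConjugate

def G (p q : ℂ) : Prop := 2 * (p * conj q).re ≤ ‖p‖ * ‖q‖

theorem G.symm {p q} (h : G p q) : G q p := by
  unfold G at *; simp only [mul_re, conj_re, conj_im] at *; linarith

theorem angle_iff {p q : ℂ} (hp : p ≠ 0) (hq : q ≠ 0) :
    Real.pi / 3 ≤ InnerProductGeometry.angle p q ↔ G p q := by
  have h : 0 < ‖p‖ * ‖q‖ := by positivity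
  rw [← Real.strictAntiOn_cos.le_iff_ge ⟨InnerProductGeometry.angle_nonneg _ _,
    InnerProductGeometry.angle_le_pi _ _⟩ ⟨by positivity, by linarith [Real.pi_pos]⟩,
    Real.cos_pi_div_three, InnerProductGeometry.cos_angle, div_le_iff₀ h, G, Complex.inner]
  simp only [mul_re, conj_re, conj_im]
  constructor <;> intro <;> linarith

theorem nsq (p : ℂ) : ‖p‖ ^ 2 = p.re ^ 2 + p.im ^ 2 := by
  rw [Complex.sq_norm, normSq_apply]; ring

theorem tri {p q : ℂ} (hp : p ≠ 0) (h1 : G p q) (h2 : G (-p) (q - p)) (h3 : G (-q) (p - q)) :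
    q ^ 2 - p * q + p ^ 2 = 0 := by
  have a := nsq p
  have b := nsq q
  have c := nsq (q - p)
  unfold G at *
  rw [norm_neg] at h2 h3
  rw [norm_sub_rev p q] at h3
  simp only [mul_re, conj_re, conj_im, neg_re, neg_im, sub_re, sub_im] at h1 h2 h3 c
  generalize ‖p‖ = α at *
  generalize ‖q‖ = β at *
  generalize ‖q - p‖ = γ at *
  have e1 : α = β := by nlinarith [sq_nonneg (α - β), sq_nonneg (β - γ), sq_nonneg (α - γ)]
  have e2 : α = γ := by nlinarith [sq_nonneg (α - β), sq_nonneg (β - γ), sq_nonneg (α - γ)]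
  subst e1 e2
  refine mul_left_cancel₀ ((map_ne_zero conj).2 hp) (Complex.ext ?_ ?_) <;>
    simp [pow_two]
  · linear_combination (p.re * (b - a) - q.re * (b - c))
  · linear_combination (p.im * (b - a) - q.im * (b - c))

theorem G.mul {p q : ℂ} (h : G p q) (z : ℂ) {s t : ℝ} (hs : 0 ≤ s) (ht : 0 ≤ t) :
    G (s * p * z) (t * q * z) := by
  unfold G at *
  have e : (s * p * z * conj (t * q * z)).re = s * t * ‖z‖ ^ 2 * (p * conj q).re := by
    rw [nsq]; simp; ring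
  rw [e]
  simp only [norm_mul, norm_real, Real.norm_eq_abs, abs_of_nonneg hs, abs_of_nonneg ht]
  have := mul_le_mul_of_nonneg_left h (by positivity : 0 ≤ s * t * ‖z‖ ^ 2)
  nlinarith

theorem fan {d b c : ℂ} (hb : b ≠ 0) (h : c ^ 2 - b * c + b ^ 2 = 0) (h1 : G d c)
    (h2 : G d (c - b)) (h3 : G d (-c)) (h4 : G d (b - c)) : (d * conj b).im = 0 := by
  obtain ⟨ζ, rfl⟩ : ∃ ζ, c = ζ * b := ⟨c / b, by field_simp⟩
  obtain ⟨δ, rfl⟩ : ∃ δ, d = δ * b := ⟨d / b, by field_simp⟩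
  have hz : ζ ^ 2 - ζ + 1 = 0 := mul_left_cancel₀ (pow_ne_zero 2 hb) (by linear_combination h)
  have k : ∀ {q}, G (δ * b) (q * b) → G δ q := fun {q} h => by
    have := h.mul b⁻¹ zero_le_one zero_le_one
    simpa [mul_assoc, hb] using this
  have g1 := k h1
  have g2 := k (q := ζ - 1) (by convert h2 using 1; ring)
  have g3 := k (q := -ζ) (by convert h3 using 1; ring)
  have g4 := k (q := 1 - ζ) (by convert h4 using 1; ring)
  have z1 := congrArg re hz
  have z2 := congrArg im hz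
  simp [pow_two] at z1 z2
  have r : ζ.re = 1 / 2 := by
    by_contra k
    have : ζ.im = 0 := mul_left_cancel₀ (sub_ne_zero.2 k) (by linarith)
    nlinarith [sq_nonneg (ζ.re - 1 / 2)]
  have i : ζ.im ^ 2 = 3 / 4 := by rw [r] at z1; linarith
  have n1 : ‖ζ‖ = 1 := by
    rw [← sq_eq_sq₀ (norm_nonneg _) zero_le_one, nsq, r, i]; norm_num
  have n2 : ‖ζ - 1‖ = 1 := by
    rw [← sq_eq_sq₀ (norm_nonneg _) zero_le_one, nsq]; simp [r, i]; norm_num
  unfold G at g1 g2 g3 g4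
  rw [norm_neg] at g3
  rw [norm_sub_rev] at g4
  simp only [n1, n2, mul_re, conj_re, conj_im, neg_re, neg_im, sub_re, sub_im, r, one_re,
    one_im] at g1 g2 g3 g4
  have a := nsq δ
  have : δ.im = 0 := by
    have : (|δ.re| + |2 * δ.im * ζ.im|) ^ 2 ≤ ‖δ‖ ^ 2 := by
      gcongr
      rcases abs_cases δ.re with h | h <;> rcases abs_cases (2 * δ.im * ζ.im) with h' | h' <;>
        linarith
    have e : |2 * δ.im * ζ.im| ^ 2 = 3 * δ.im ^ 2 := by rw [sq_abs, mul_pow, i]; ring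
    nlinarith [mul_nonneg (abs_nonneg δ.re) (abs_nonneg (2 * δ.im * ζ.im)), sq_abs δ.re,
      sq_nonneg δ.im]
  simp [mul_assoc, mul_conj, this]

theorem eq_im {b c : ℂ} (hb : b ≠ 0) (h : c ^ 2 - b * c + b ^ 2 = 0) : (c * conj b).im ≠ 0 := by
  obtain ⟨ζ, rfl⟩ : ∃ ζ, c = ζ * b := ⟨c / b, by field_simp⟩
  have hz : ζ ^ 2 - ζ + 1 = 0 := mul_left_cancel₀ (pow_ne_zero 2 hb) (by linear_combination h)
  have z1 := congrArg re hz
  simp [pow_two] at z1
  simp [mul_assoc, mul_conj, hb]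
  intro k; rw [k] at z1; nlinarith [sq_nonneg (ζ.re - 1 / 2)]

theorem par_of {x e : ℂ} (he : e ≠ 0) (h : (x * conj e).im = 0) : ∃ t : ℝ, x = t * e := by
  obtain ⟨δ, rfl⟩ : ∃ δ, x = δ * e := ⟨x / e, by field_simp⟩
  simp [mul_assoc, mul_conj, he] at h
  exact ⟨δ.re, by congr 1; exact Complex.ext (by simp) (by simp [h])⟩

noncomputable def ω : ℂ := ⟨1 / 2, √3 / 2⟩

theorem s3 : √3 * √3 = 3 := Real.mul_self_sqrt (by norm_num)

theorem ω2 : ω ^ 2 = ω - 1 := by
  refine Complex.ext ?_ ?_ <;> simp [ω, pow_two] <;> linarith [s3]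

theorem nω : ‖ω‖ = 1 := by
  rw [← sq_eq_sq₀ (norm_nonneg _) zero_le_one, nsq]; simp [ω]; nlinarith [s3]

theorem lat_inj {k r k' r' : ℝ} (h : (k : ℂ) + r * ω = k' + r' * ω) : k = k' ∧ r = r' := by
  have a := congrArg re h
  have b := congrArg im h
  simp [ω] at a b
  constructor <;> linarith

theorem Gl {s t s' t' : ℝ} (h : 2 * s * s' + 2 * t * t' + s * t' + t * s' ≤ 0 ∨
    (2 * s * s' + 2 * t * t' + s * t' + t * s') ^ 2 ≤
      (s ^ 2 + s * t + t ^ 2) * (s' ^ 2 + s' * t' + t' ^ 2)) : G (s + t * ω) (s' + t' * ω) := by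
  have n : ∀ s t : ℝ, ‖(s : ℂ) + t * ω‖ ^ 2 = s ^ 2 + s * t + t ^ 2 := fun s t => by
    rw [nsq]; simp [ω]; linear_combination t ^ 2 / 4 * s3
  have e : 2 * (((s : ℂ) + t * ω) * conj ((s' : ℂ) + t' * ω)).re =
      2 * s * s' + 2 * t * t' + s * t' + t * s' := by
    simp [ω]; linear_combination t * t' / 2 * s3
  rw [G, e]
  rcases h with h | h
  · exact h.trans (by positivity)
  · exact Real.le_sqrt_of_sq_le (h.trans_eq (by rw [← n, ← n, ← mul_pow])) |>.trans_eq
      (Real.sqrt_sq (by positivity))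

theorem ωp (e : ℕ) (h : e < 6) (s t : ℝ) : ω ^ e * (s + t * ω) =
    ([s, -t, -s - t, -s, t, s + t].getD e 0 : ℝ) + ([t, s + t, s, -t, -s - t, -s].getD e 0 : ℝ) * ω := by
  have p3 : ω ^ 3 = -1 := by linear_combination (ω + 1) * ω2
  have p4 : ω ^ 4 = -ω := by linear_combination ω * p3
  have p5 : ω ^ 5 = 1 - ω := by linear_combination ω ^ 2 * p3 - ω2
  interval_cases e <;> simp [p3, p4, p5, ω2]
  · linear_combination t * ω2
  · linear_combination t * ω2
  · ring
  · linear_combination -t * ω2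
  · linear_combination -t * ω2

theorem Gω {e e' : ℕ} (h : e < 6) (h' : e' < 6) (hne : e ≠ e') : G (ω ^ e) (ω ^ e') := by
  have a := ωp e h 1 0
  have b := ωp e' h' 1 0
  simp only [ofReal_one, ofReal_zero, zero_mul, add_zero, mul_one] at a b
  rw [a, b]
  apply Gl
  interval_cases e <;> interval_cases e' <;> simp at hne ⊢ <;> norm_num

def Cone (z : ℂ) : Prop := ∃ s t : ℝ, 0 ≤ s ∧ 0 ≤ t ∧ z = s + t * ω

theorem Cone.add {z w} (h : Cone z) (h' : Cone w) : Cone (z + w) :=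
  let ⟨s, t, a, b, e⟩ := h
  let ⟨s', t', a', b', e'⟩ := h'
  ⟨s + s', t + t', by positivity, by positivity, by rw [e, e']; push_cast; ring⟩

theorem Cone.smul {z} (h : Cone z) {r : ℝ} (hr : 0 ≤ r) : Cone (r * z) :=
  let ⟨s, t, a, b, e⟩ := h
  ⟨r * s, r * t, by positivity, by positivity, by rw [e]; push_cast; ring⟩

theorem Gcone {b b' : ℂ} (h : Cone b) (h' : Cone b') {e e' : ℕ} (he : e = 1 ∨ e = 2)
    (he' : e' = 4 ∨ e' = 5) : G (ω ^ e * b) (ω ^ e' * b') := by
  obtain ⟨s, t, hs, ht, rfl⟩ := h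
  obtain ⟨s', t', hs', ht', rfl⟩ := h'
  rw [ωp e (by omega), ωp e' (by omega)]
  apply Gl
  have a := mul_nonneg hs hs'
  have b := mul_nonneg hs ht'
  have c := mul_nonneg ht hs'
  have d := mul_nonneg ht ht'
  rcases he with rfl | rfl <;> rcases he' with rfl | rfl <;> simp
  · left; nlinarith
  · refine or_iff_not_imp_left.2 fun h => (pow_le_pow_left₀ (not_le.1 h).le
      (show _ ≤ s * t' by nlinarith) 2).trans ?_
    rw [mul_pow]
    exact mul_le_mul (by nlinarith [mul_nonneg hs ht]) (by nlinarith [mul_nonneg hs' ht'])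
      (by positivity) (by nlinarith [mul_nonneg hs ht])
  · refine or_iff_not_imp_left.2 fun h => (pow_le_pow_left₀ (not_le.1 h).le
      (show _ ≤ t * s' by nlinarith) 2).trans ?_
    rw [mul_pow]
    exact mul_le_mul (by nlinarith [mul_nonneg hs ht]) (by nlinarith [mul_nonneg hs' ht'])
      (by positivity) (by nlinarith [mul_nonneg hs ht])
  · left; nlinarith

end Pool.Agent.H38.Ang
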