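import Pool.Agent.H38.Ang.Cmp

/-!
Systems of vector sums and directions, turned into rigid pieces with joints and links.
-/

namespace Pool.Agent.H38.Ang

open Complex ComplexConjugate Pool.Agent.H38.NP Pool.Agent.H38.ER Filter

def vr (C : List Q4) (s : ℕ) : ℕ := if s % 3 = 0 then (C.getD (s / 3) (0, 0, 0, 0)).1 else
  if s % 3 = 1 then (C.getD (s / 3) (0, 0, 0, 0)).2.1 else (C.getD (s / 3) (0, 0, 0, 0)).2.2.1

def ty (C : List Q4) (c : ℕ) : ℕ := (C.getD c (0, 0, 0, 0)).2.2.2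

def toB (p : ℕ × List Q4) : BI := (p.1 + 9 * p.2.length, 6 * p.2.length + 6,
  ((List.range (3 * p.2.length)).flatMap fun s => [(vr p.2 s, 3 + 2 * s, p.1 + 3 * s + 1, 3),
    (vr p.2 s, 4 + 2 * s, p.1 + 3 * s + 2, 3), (p.1 + 3 * s + 1, 4, p.1 + 3 * s + 2, 4),
    (p.1 + 3 * s, 4, p.1 + 3 * s + 1, 5), (p.1 + 3 * s, 3, p.1 + 3 * s + 2, 5)]) ++
  ((List.range p.2.length).flatMap fun c => if ty p.2 c = 0 then
    [(p.1 + 9 * c, 6, p.1 + 9 * c + 3, 5), (p.1 + 9 * c, 5, p.1 + 9 * c + 6, 5),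
      (p.1 + 9 * c + 3, 6, p.1 + 9 * c + 6, 6)] else []),
  (List.range p.2.length).flatMap fun c => if ty p.2 c = 0 then [] else
    [(p.1 + 9 * c, p.1 + 9 * c + 3, decide (ty p.2 c = 2))])

theorem pt_toB : PT toB := by unfold toB vr ty; fun_prop

def BdA (p : ℕ × List Q4) : Prop := ∀ q ∈ p.2, q.1 < p.1 ∧ q.2.1 < p.1 ∧ q.2.2.1 < p.1

def WA (p : ℕ × List Q4) : Prop := ∃ v : ℕ → ℂ, (∀ i < p.1, v i ≠ 0) ∧ ∀ q ∈ p.2,
  (q.2.2.2 = 0 → v q.1 + v q.2.1 = v q.2.2.1) ∧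
    (q.2.2.2 ≠ 0 → ((v q.2.1 * conj (v q.1)).im = 0 ↔ q.2.2.2 ≠ 2))

variable {m : ℕ} {C : List Q4}

theorem vr_lt (h : BdA (m, C)) {s} (hs : s < 3 * C.length) : vr C s < m := by
  have := h _ (getD_mem (t := s / 3) (by simp only; omega))
  unfold vr; split_ifs <;> tauto

theorem vr0 (c) : vr C (3 * c) = (C.getD c (0, 0, 0, 0)).1 := by simp [vr]
theorem vr1 (c) : vr C (3 * c + 1) = (C.getD c (0, 0, 0, 0)).2.1 := by
  simp [vr, show (3 * c + 1) / 3 = c by omega, show (3 * c + 1) % 3 = 1 by omega]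
theorem vr2 (c) : vr C (3 * c + 2) = (C.getD c (0, 0, 0, 0)).2.2.1 := by
  simp [vr, show (3 * c + 2) / 3 = c by omega, show (3 * c + 2) % 3 = 2 by omega]

theorem memJ {j} : j ∈ (toB (m, C)).2.2.1 ↔ (∃ s < 3 * C.length,
    j = (vr C s, 3 + 2 * s, m + 3 * s + 1, 3) ∨ j = (vr C s, 4 + 2 * s, m + 3 * s + 2, 3) ∨
    j = (m + 3 * s + 1, 4, m + 3 * s + 2, 4) ∨ j = (m + 3 * s, 4, m + 3 * s + 1, 5) ∨
    j = (m + 3 * s, 3, m + 3 * s + 2, 5)) ∨ ∃ c < C.length, ty C c = 0 ∧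
    (j = (m + 9 * c, 6, m + 9 * c + 3, 5) ∨ j = (m + 9 * c, 5, m + 9 * c + 6, 5) ∨
      j = (m + 9 * c + 3, 6, m + 9 * c + 6, 6)) := by
  simp [toB]

theorem memK {l} : l ∈ (toB (m, C)).2.2.2 ↔ ∃ c < C.length, ty C c ≠ 0 ∧
    l = (m + 9 * c, m + 9 * c + 3, decide (ty C c = 2)) := by
  simp [toB]

theorem toB_bd (h : BdA (m, C)) : BdB (toB (m, C)) ∧ UqB (toB (m, C)) := by
  refine ⟨⟨by simp [toB], fun j hj => ?_, fun l hl => ?_⟩, fun j hj j' hj' => ?_,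
    fun l hl l' hl' => ?_⟩
  · rcases memJ.1 hj with ⟨s, hs, rfl | rfl | rfl | rfl | rfl⟩ | ⟨c, hc, -, rfl | rfl | rfl⟩ <;>
      simp only [toB] <;> first | (have := vr_lt h hs; omega) | omega
  · obtain ⟨c, hc, -, rfl⟩ := memK.1 hl
    simp only [toB]; omega
  · rcases memJ.1 hj with ⟨s, hs, rfl | rfl | rfl | rfl | rfl⟩ | ⟨c, hc, -, rfl | rfl | rfl⟩ <;>
    rcases memJ.1 hj' with ⟨s', hs', rfl | rfl | rfl | rfl | rfl⟩ | ⟨c', hc', -, rfl | rfl | rfl⟩ <;>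
    (try have := vr_lt h hs) <;> (try have := vr_lt h hs') <;>
    simp only [Prod.mk.injEq, and_true, true_and, true_imp_iff] <;> omega
  · obtain ⟨c, hc, -, rfl⟩ := memK.1 hl
    obtain ⟨c', hc', -, rfl⟩ := memK.1 hl'
    intro e
    obtain rfl : c = c' := by simp only at e; omega
    rfl

theorem toB_s (h : BdA (m, C)) (w : WB (toB (m, C))) : WA (m, C) := by
  obtain ⟨a, b, h0, h1, h2⟩ := w
  have cp : ∀ s < 3 * C.length, b (m + 3 * s) = b (vr C s) := fun s hs => by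
    have a1 := h1 _ (memJ.2 (.inl ⟨s, hs, .inl rfl⟩))
    have a2 := h1 _ (memJ.2 (.inl ⟨s, hs, .inr (.inl rfl)⟩))
    have a3 := h1 _ (memJ.2 (.inl ⟨s, hs, .inr (.inr (.inl rfl))⟩))
    have a4 := h1 _ (memJ.2 (.inl ⟨s, hs, .inr (.inr (.inr (.inl rfl)))⟩))
    have a5 := h1 _ (memJ.2 (.inl ⟨s, hs, .inr (.inr (.inr (.inr rfl)))⟩))
    push_cast at a1 a2 a3 a4 a5
    linear_combination a1 - a2 + 2 * a3 + a4 - a5
  refine ⟨b, fun i hi => h0 i (by simp only [toB] at *; omega), fun q hq => ?_⟩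
  obtain ⟨c, hc, rfl⟩ := List.getElem_of_mem hq
  simp only at hc
  have c0 := cp (3 * c) (by omega)
  have c1 := cp (3 * c + 1) (by omega)
  have c2 := cp (3 * c + 2) (by omega)
  rw [vr0, show m + 3 * (3 * c) = m + 9 * c by ring] at c0
  rw [vr1, show m + 3 * (3 * c + 1) = m + 9 * c + 3 by ring] at c1
  rw [vr2, show m + 3 * (3 * c + 2) = m + 9 * c + 6 by ring] at c2
  rw [← List.getD_eq_getElem _ (0, 0, 0, 0) hc, ← c0, ← c1, ← c2]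
  refine ⟨fun t => ?_, fun t => by simpa [ty] using h2 _ (memK.2 ⟨c, hc, t, rfl⟩)⟩
  have a1 := h1 _ (memJ.2 (.inr ⟨c, hc, t, .inl rfl⟩))
  have a2 := h1 _ (memJ.2 (.inr ⟨c, hc, t, .inr (.inl rfl)⟩))
  have a3 := h1 _ (memJ.2 (.inr ⟨c, hc, t, .inr (.inr rfl)⟩))
  push_cast at a1 a2 a3
  linear_combination a1 - a2 + a3

end Pool.Agent.H38.Ang
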