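import Pool.Agent.H38.Ang.LvA

/-!
Systems of vector sums and directions: a separated placement of the rigid pieces.
-/

namespace Pool.Agent.H38.Ang

open Complex ComplexConjugate Pool.Agent.H38.NP Pool.Agent.H38.ER Filter Polynomial

def Lat (z : ℂ) : Prop := ∃ a b : ℤ, z = a + b * ω

theorem Lat.sub {z w} (h : Lat z) (h' : Lat w) : Lat (z - w) :=
  let ⟨a, b, e⟩ := h; let ⟨a', b', e'⟩ := h'; ⟨a - a', b - b', by rw [e, e']; push_cast; ring⟩

theorem lat_nat (k : ℕ) : Lat k := ⟨k, 0, by simp⟩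

theorem lat_lam (r k) : Lat (lam r k) := ⟨k, r - 2, by simp [lam]⟩

theorem lam_nat {r k n : ℕ} (h : lam r k = n) : r = 2 ∧ k = n :=
  lam_inj (r' := 2) (k' := n) (by simpa [lam] using h)

def Ind (u v : ℂ) : Prop := ∀ z z', Lat z → Lat z' → z * u = z' * v → z = 0 ∧ z' = 0

theorem Ind.symm {u v} (h : Ind u v) : Ind v u := fun z z' a b e => (h z' z b a e.symm).symm

def SA (p : ℕ × List Q4) : Prop := ∃ v : ℕ → ℂ, (∀ i < p.1, Cone (v i) ∧ v i ≠ 0) ∧ ∀ q ∈ p.2,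
  (q.2.2.2 = 0 → v q.1 + v q.2.1 = v q.2.2.1 ∧ Ind (v q.1) (v q.2.1) ∧ Ind (v q.1) (v q.2.2.1) ∧
    Ind (v q.2.1) (v q.2.2.1)) ∧
  (q.2.2.2 ≠ 0 → ∃ t : ℝ, 0 < t ∧ t * v q.2.1 = cond (decide (q.2.2.2 = 2)) ω 1 * v q.1)

theorem w0 : 1 + ω ≠ 0 := fun h => by
  have := (lat_inj (k := 1) (r := 1) (k' := 0) (r' := 0) (by simpa using h)).1
  norm_num at this

theorem poly_ev (f g : ℂ[X]) : ∀ᶠ t : ℝ in atTop, f.eval (t : ℂ) = g.eval (t : ℂ) → f = g := by
  by_cases h : f = g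
  · exact .of_forall fun _ _ => h
  refine Eventually.filter_mono atTop_le_cofinite ?_
  refine (((f - g).finite_setOfPred_isRoot (sub_ne_zero.2 h)).preimage
    ofReal_injective.injOn).subset fun t ht => ?_
  simp only [Set.mem_compl_iff, Set.mem_ofPred_eq, Classical.not_imp] at ht
  simp [ht.1, sub_eq_zero]

noncomputable def fp (m N : ℕ) (T μ : ℂ) (i c : ℕ) (d κ : ℂ) : ℂ :=
  (1 - μ) * (1 + ω) * T ^ (i + 1) + μ * (1 + ω) * T ^ (m + 1 + c) + μ * d * T ^ (m + 1 + N + c) + κ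

theorem fp_ev {m N i c i' c' : ℕ} (μ d κ μ' d' κ' : ℂ) (hi : i < m) (hi' : i' < m)
    (hc : μ = 0 ∨ c < N) (hc' : μ' = 0 ∨ c' < N) : ∀ᶠ t : ℝ in atTop,
    fp m N t μ i c d κ = fp m N t μ' i' c' d' κ' →
      μ = μ' ∧ (μ ≠ 1 → i = i') ∧ (μ ≠ 0 → c = c' ∧ d = d') ∧ κ = κ' := by
  refine (poly_ev (monomial (i + 1) ((1 - μ) * (1 + ω)) + monomial (m + 1 + c) (μ * (1 + ω)) +
    monomial (m + 1 + N + c) (μ * d) + monomial 0 κ) (monomial (i' + 1) ((1 - μ') * (1 + ω)) +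
    monomial (m + 1 + c') (μ' * (1 + ω)) + monomial (m + 1 + N + c') (μ' * d') + monomial 0 κ')).mono
    fun t h e => ?_
  have k := fun n => congrArg (coeff · n) (h (by simpa [fp] using e))
  simp only [coeff_add, coeff_monomial] at k
  have k0 := k 0
  have k1 := k (i + 1)
  have k2 := k (i' + 1)
  have k3 := k (m + 1 + c)
  have k4 := k (m + 1 + N + c)
  simp (disch := omega) only [if_pos, if_neg, add_zero, zero_add, if_true] at k0 k1 k2
  have hw := w0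
  have m1 : μ = μ' ∧ (μ ≠ 1 → i = i') := by
    by_cases ei : i = i'
    · subst ei; grind
    · simp (disch := omega) only [if_neg] at k1 k2; grind
  obtain ⟨rfl, m1⟩ := m1
  refine ⟨rfl, m1, fun h => ?_, k0⟩
  have := hc.resolve_left h
  have := hc'.resolve_left h
  by_cases ec : c = c'
  · subst ec
    simp (disch := omega) only [if_pos, if_neg, add_zero, zero_add, if_true] at k4
    grind
  · simp (disch := omega) only [if_pos, if_neg, add_zero, zero_add, if_true] at k3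
    grind

theorem cone_ev {a b : ℕ} (h : b < a) (κ : ℂ) : ∀ᶠ T : ℝ in atTop, ∀ d z : ℂ, Cone d →
    2 * z = (T ^ a - T ^ b) * (1 + ω) + κ + d → Cone z ∧ z ≠ 0 := by
  obtain ⟨α, β, rfl⟩ : ∃ α β : ℝ, κ = α + β * ω :=
    ⟨κ.re - κ.im / √3, 2 * κ.im / √3, by
      apply Complex.ext <;> simp [ω, -ofReal_div] <;> field_simp <;> ring⟩
  filter_upwards [eventually_ge_atTop (2 + |α| + |β|)] with T hT d z ⟨s, t, hs, ht, e⟩ e'
  have := abs_nonneg α
  have := abs_nonneg β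
  have := neg_abs_le α
  have := neg_abs_le β
  have h1 : 1 ≤ T ^ b := one_le_pow₀ (by linarith)
  have h2 : T ^ (b + 1) ≤ T ^ a := pow_le_pow_right₀ (by linarith) h
  have h3 : T - 1 ≤ T ^ a - T ^ b := by rw [pow_succ] at h2; nlinarith
  have e2 : z = ((T ^ a - T ^ b + α + s) / 2 : ℝ) + ((T ^ a - T ^ b + β + t) / 2 : ℝ) * ω := by
    push_cast; linear_combination e' / 2 + e / 2
  refine ⟨⟨_, _, by linarith, by linarith, e2⟩, fun z0 => ?_⟩
  have := (lat_inj (k' := 0) (r' := 0) (by rw [← e2, z0]; simp)).1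
  linarith

end Pool.Agent.H38.Ang
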