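import Pool.Agent.H38.Ang.LvA2

/-!
Systems of vector sums and directions: the placement is separated.
-/

namespace Pool.Agent.H38.Ang

open Complex ComplexConjugate Pool.Agent.H38.NP Pool.Agent.H38.ER Filter

noncomputable def dd (C : List Q4) (v : ℕ → ℂ) (s : ℕ) : ℂ := if ty C (s / 3) = 0 then 0 else
  (s % 3 : ℕ) * (cond (decide (ty C (s / 3) = 2)) ω 1 * v (vr C (3 * (s / 3))))

noncomputable def off (C : List Q4) (v : ℕ → ℂ) (s : ℕ) : ℂ := if s % 3 = 0 then 0 else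
  if ty C (s / 3) = 0 then (7 - (s % 3 : ℕ)) * v (vr C (3 * (s / 3))) - 5 * v (vr C s)
  else cond (decide (ty C (s / 3) = 2)) (lam 4 1) (lam 2 (6 * C.length + 6 + 1)) *
    v (vr C (3 * (s / 3))) - v (vr C s)

noncomputable def mu (e : ℕ) (z : ℂ) : ℂ := if e = 0 then 1 else (z - 3) / 2

noncomputable def ka (C : List Q4) (v : ℕ → ℂ) (s e : ℕ) (z : ℂ) : ℂ :=
  if e = 0 then off C v s + z * v (vr C s) else
    (1 - mu e z) * (2 + 2 * s + e : ℕ) * v (vr C s) + mu e z * (off C v s + (5 - e : ℕ) * v (vr C s))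

def Cn (J : List Q4) (i r k i' r' k' : ℕ) : Prop := (i = i' ∧ r = r' ∧ k = k') ∨
  (r = 2 ∧ r' = 2 ∧ ((i, k, i', k') ∈ J ∨ (i', k', i, k) ∈ J))

theorem Cn.symm {J i r k i' r' k'} (h : Cn J i r k i' r' k') : Cn J i' r' k' i r k := by
  unfold Cn at *; tauto

variable {m : ℕ} {C : List Q4} {v : ℕ → ℂ}

theorem sepWX {i r k s e r' k'} (hv : v i ≠ 0) (hs : s < 3 * C.length) (he : e < 3)
    (h1 : 0 = mu e (lam r' k')) (h2 : i = vr C s) (h3 : lam r k * v i = ka C v s e (lam r' k')) :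
    Cn (toB (m, C)).2.2.1 i r k (m + (3 * s + e)) r' k' := by
  have e0 : e ≠ 0 := by rintro rfl; simp [mu] at h1
  rw [ka, if_neg e0, ← h1, ← h2] at h3
  rw [mu, if_neg e0] at h1
  obtain ⟨rfl, rfl⟩ := lam_nat (n := 3) (r := r') (k := k') (by push_cast; linear_combination -2 * h1)
  obtain ⟨rfl, rfl⟩ := lam_nat (mul_right_cancel₀ hv (h3.trans (by ring)))
  refine .inr ⟨rfl, rfl, .inl (memJ.2 (.inl ⟨s, hs, ?_⟩))⟩
  simp; omega

theorem one1 {s e z} (h : mu e z = 1) : ∃ ρ, ka C v s e z = off C v s + ρ * v (vr C s) ∧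
    ((e = 0 ∧ ρ = z) ∨ (e ≠ 0 ∧ z = (5 : ℕ) ∧ ρ = (5 - e : ℕ))) := by
  by_cases e0 : e = 0
  · exact ⟨z, by rw [ka, if_pos e0], .inl ⟨e0, rfl⟩⟩
  · refine ⟨_, by rw [ka, if_neg e0, h]; ring, .inr ⟨e0, ?_, rfl⟩⟩
    rw [mu, if_neg e0] at h; push_cast; linear_combination 2 * h

theorem sepS {s e r k e' r' k'} (hv : v (vr C s) ≠ 0) (hs : s < 3 * C.length) (he : e < 3)
    (he' : e' < 3) (h1 : mu e (lam r k) = mu e' (lam r' k'))
    (h3 : ka C v s e (lam r k) = ka C v s e' (lam r' k')) :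
    Cn (toB (m, C)).2.2.1 (m + (3 * s + e)) r k (m + (3 * s + e')) r' k' := by
  by_cases h : mu e (lam r k) = 1
  · obtain ⟨ρ, a1, a2⟩ := one1 (C := C) (v := v) (s := s) h
    obtain ⟨ρ', b1, b2⟩ := one1 (C := C) (v := v) (s := s) (h1.symm.trans h)
    rw [a1, b1] at h3
    obtain rfl := mul_right_cancel₀ hv (add_left_cancel h3)
    rcases a2 with ⟨rfl, rfl⟩ | ⟨a2, a3, rfl⟩ <;> rcases b2 with ⟨rfl, b4⟩ | ⟨b2, b3, b4⟩
    · exact .inl ⟨rfl, lam_inj b4⟩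
    · obtain ⟨rfl, rfl⟩ := lam_nat b3
      obtain ⟨rfl, rfl⟩ := lam_nat b4
      refine .inr ⟨rfl, rfl, .inl (memJ.2 (.inl ⟨s, hs, ?_⟩))⟩
      simp; omega
    · obtain ⟨rfl, rfl⟩ := lam_nat a3
      obtain ⟨rfl, rfl⟩ := lam_nat b4.symm
      refine .inr ⟨rfl, rfl, .inr (memJ.2 (.inl ⟨s, hs, ?_⟩))⟩
      simp; omega
    · have := Nat.cast_injective b4
      exact .inl ⟨by omega, lam_inj (a3.trans b3.symm)⟩
  have e0 : e ≠ 0 := by rintro rfl; simp [mu] at h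
  have e1 : e' ≠ 0 := by rintro rfl; rw [h1] at h; simp [mu] at h
  rw [ka, ka, if_neg e0, if_neg e1, ← h1] at h3
  simp only [mu, if_neg e0, if_neg e1] at h1 h3
  obtain ⟨rfl, rfl⟩ := lam_inj (show lam r k = lam r' k' by linear_combination 2 * h1)
  rcases (by omega : e = e' ∨ (e = 1 ∧ e' = 2) ∨ (e = 2 ∧ e' = 1)) with rfl | ⟨rfl, rfl⟩ | ⟨rfl, rfl⟩
  · exact .inl ⟨rfl, rfl, rfl⟩
  · obtain ⟨rfl, rfl⟩ := lam_nat (n := 4) (r := r) (k := k)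
      (mul_right_cancel₀ hv (by push_cast at h3 ⊢; linear_combination h3))
    refine .inr ⟨rfl, rfl, .inl (memJ.2 (.inl ⟨s, hs, ?_⟩))⟩
    simp; omega
  · obtain ⟨rfl, rfl⟩ := lam_nat (n := 4) (r := r) (k := k)
      (mul_right_cancel₀ hv (by push_cast at h3 ⊢; linear_combination -h3))
    refine .inr ⟨rfl, rfl, .inr (memJ.2 (.inl ⟨s, hs, ?_⟩))⟩
    simp; omega

theorem sepA {c t e r k t' e' r' k'} (hc : c < C.length) (ht : t < t') (ht' : t' < 3) (he : e < 3)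
    (he' : e' < 3) (h0 : ty C c = 0) (ha : v (vr C (3 * c)) + v (vr C (3 * c + 1)) = v (vr C (3 * c + 2)))
    (hi : Ind (v (vr C (3 * c + t))) (v (vr C (3 * c + t'))))
    (h1 : mu e (lam r k) = 1) (h2 : mu e' (lam r' k') = 1)
    (h3 : ka C v (3 * c + t) e (lam r k) = ka C v (3 * c + t') e' (lam r' k')) :
    Cn (toB (m, C)).2.2.1 (m + (3 * (3 * c + t) + e)) r k (m + (3 * (3 * c + t') + e')) r' k' := by
  obtain ⟨ρ, a1, a2⟩ := one1 (C := C) (v := v) (s := 3 * c + t) h1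
  obtain ⟨ρ', b1, b2⟩ := one1 (C := C) (v := v) (s := 3 * c + t') h2
  have l1 : Lat ρ := by rcases a2 with ⟨-, rfl⟩ | ⟨-, -, rfl⟩; exacts [lat_lam _ _, lat_nat _]
  have l2 : Lat ρ' := by rcases b2 with ⟨-, rfl⟩ | ⟨-, -, rfl⟩; exacts [lat_lam _ _, lat_nat _]
  rw [a1, b1] at h3
  have key : ∀ n n' : ℕ, 5 ≤ n → 5 ≤ n' →
      (ρ - n) * v (vr C (3 * c + t)) = (ρ' - n') * v (vr C (3 * c + t')) →
      e = 0 ∧ e' = 0 ∧ r = 2 ∧ r' = 2 ∧ k = n ∧ k' = n' := fun n n' hn hn' h => by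
    obtain ⟨z1, z2⟩ := hi _ _ (l1.sub (lat_nat n)) (l2.sub (lat_nat n')) h
    rw [sub_eq_zero] at z1 z2
    rcases a2 with ⟨rfl, rfl⟩ | ⟨a2, -, rfl⟩ <;> rcases b2 with ⟨rfl, rfl⟩ | ⟨b2, -, rfl⟩
    · have := lam_nat z1; have := lam_nat z2; omega
    · have := Nat.cast_injective z2; omega
    · have := Nat.cast_injective z1; omega
    · have := Nat.cast_injective z1; omega
  have d0 : 3 * c / 3 = c := by omega
  have d1 : (3 * c + 1) / 3 = c ∧ (3 * c + 1) % 3 = 1 := by omega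
  have d2 : (3 * c + 2) / 3 = c ∧ (3 * c + 2) % 3 = 2 := by omega
  rcases (by omega : (t = 0 ∧ t' = 1) ∨ (t = 0 ∧ t' = 2) ∨ (t = 1 ∧ t' = 2)) with
    ⟨rfl, rfl⟩ | ⟨rfl, rfl⟩ | ⟨rfl, rfl⟩ <;>
    simp only [off, d0, d1, d2, h0, add_zero, Nat.mul_mod_right, if_true, one_ne_zero, if_false,
      OfNat.ofNat_ne_zero] at h3 key <;> push_cast at h3
  · obtain ⟨rfl, rfl, rfl, rfl, rfl, rfl⟩ := key 6 5 (by omega) (by omega)
      (by push_cast; linear_combination h3)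
    refine .inr ⟨rfl, rfl, .inl (memJ.2 (.inr ⟨c, hc, h0, ?_⟩))⟩
    simp; omega
  · obtain ⟨rfl, rfl, rfl, rfl, rfl, rfl⟩ := key 5 5 (by omega) (by omega)
      (by push_cast; linear_combination h3)
    refine .inr ⟨rfl, rfl, .inl (memJ.2 (.inr ⟨c, hc, h0, ?_⟩))⟩
    simp; omega
  · obtain ⟨rfl, rfl, rfl, rfl, rfl, rfl⟩ := key 6 6 (by omega) (by omega)
      (by push_cast; linear_combination h3 - ha)
    refine .inr ⟨rfl, rfl, .inl (memJ.2 (.inr ⟨c, hc, h0, ?_⟩))⟩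
    simp; omega

end Pool.Agent.H38.Ang
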