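import Pool.Agent.H38.Ang.LvA3

/-!
Systems of vector sums and directions: solvable systems give separated placements.
-/

namespace Pool.Agent.H38.Ang

open Complex ComplexConjugate Pool.Agent.H38.NP Pool.Agent.H38.ER Filter

noncomputable def bb (m : ℕ) (C : List Q4) (v : ℕ → ℂ) (T : ℂ) (β : ℕ) : ℂ := if β < m then v β else
  if (β - m) % 3 = 0 then v (vr C ((β - m) / 3)) else
  (fp m C.length T 1 0 ((β - m) / 3 / 3) (dd C v ((β - m) / 3)) (off C v ((β - m) / 3)) +
    (5 - (β - m) % 3 : ℕ) * v (vr C ((β - m) / 3)) - ((1 + ω) * T ^ (vr C ((β - m) / 3) + 1) +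
      (2 + 2 * ((β - m) / 3) + (β - m) % 3 : ℕ) * v (vr C ((β - m) / 3)))) / 2

noncomputable def aa (m : ℕ) (C : List Q4) (v : ℕ → ℂ) (T : ℂ) (β : ℕ) : ℂ :=
  if β < m then (1 + ω) * T ^ (β + 1) else if (β - m) % 3 = 0 then
  fp m C.length T 1 0 ((β - m) / 3 / 3) (dd C v ((β - m) / 3)) (off C v ((β - m) / 3)) else
  (1 + ω) * T ^ (vr C ((β - m) / 3) + 1) +
    (2 + 2 * ((β - m) / 3) + (β - m) % 3 : ℕ) * v (vr C ((β - m) / 3)) - 3 * bb m C v T β

variable {m : ℕ} {C : List Q4} {v : ℕ → ℂ}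

theorem pW {T z β} (h : β < m) :
    aa m C v T β + z * bb m C v T β = fp m C.length T 0 β 0 0 (z * v β) := by
  simp [aa, bb, fp, h]

theorem pX {T z β} (s e) (he : e < 3) (h : β = m + (3 * s + e)) : aa m C v T β + z * bb m C v T β =
    fp m C.length T (mu e z) (vr C s) (s / 3) (dd C v s) (ka C v s e z) := by
  subst h
  simp only [aa, bb, mu, ka, Nat.add_sub_cancel_left, show (3 * s + e) / 3 = s by omega,
    show (3 * s + e) % 3 = e by omega, show ¬ m + (3 * s + e) < m by omega, if_false]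
  split_ifs <;> simp only [fp] <;> ring

theorem bU {T β} (s) (h : β = m + 3 * s) : bb m C v T β = v (vr C s) := by
  subst h; simp [bb]

theorem evl {m : ℕ} {p : ℕ → ℝ → Prop} (h : ∀ i < m, ∀ᶠ t in atTop, p i t) :
    ∀ᶠ t in atTop, ∀ i < m, p i t := (eventually_all_finite (Set.finite_lt_nat m)).2 h

theorem cls {N β} (h : β < m + 9 * N) : β < m ∨ ∃ s < 3 * N, ∃ e < 3, β = m + (3 * s + e) :=
  (lt_or_ge β m).imp_right fun _ => ⟨(β - m) / 3, by omega, (β - m) % 3, by omega, by omega⟩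

theorem fp_imp {N i c i' c' : ℕ} {μ d κ μ' d' κ' : ℂ} {Q : Prop} (hi : i < m) (hi' : i' < m)
    (hc : μ = 0 ∨ c < N) (hc' : μ' = 0 ∨ c' < N)
    (h : μ = μ' → (μ ≠ 1 → i = i') → (μ ≠ 0 → c = c' ∧ d = d') → κ = κ' → Q) :
    ∀ᶠ t : ℝ in atTop, fp m N t μ i c d κ = fp m N t μ' i' c' d' κ' → Q :=
  (fp_ev μ d κ μ' d' κ' hi hi' hc hc').mono fun _ k e => let ⟨a, b, c, d⟩ := k e; h a b c d

theorem toB_c (hb : BdA (m, C)) (h : SA (m, C)) : SB (toB (m, C)) := by
  obtain ⟨v, h0, h⟩ := h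
  simp only at h0 h
  have hA : ∀ c < C.length, ty C c = 0 →
      v (vr C (3 * c)) + v (vr C (3 * c + 1)) = v (vr C (3 * c + 2)) ∧
      Ind (v (vr C (3 * c))) (v (vr C (3 * c + 1))) ∧ Ind (v (vr C (3 * c))) (v (vr C (3 * c + 2))) ∧
      Ind (v (vr C (3 * c + 1))) (v (vr C (3 * c + 2))) := fun c hc t => by
    rw [vr0, vr1, vr2]; exact (h _ (getD_mem hc)).1 t
  have hP : ∀ c < C.length, ty C c ≠ 0 → ∃ t : ℝ, 0 < t ∧ t * v (vr C (3 * c + 1)) =
      cond (decide (ty C c = 2)) ω 1 * v (vr C (3 * c)) := fun c hc t => by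
    rw [vr0, vr1]; exact (h _ (getD_mem hc)).2 t
  have hv := fun s hs => h0 _ (vr_lt hb (s := s) hs)
  have hd : ∀ s < 3 * C.length, Cone (dd C v s) := fun s hs => by
    unfold dd; split_ifs with t
    · exact ⟨0, 0, le_rfl, le_rfl, by simp⟩
    · obtain ⟨t, t0, e⟩ := hP _ (by omega) t
      rw [← e]
      exact_mod_cast ((hv _ (by omega)).1.smul t0.le).smul (Nat.cast_nonneg (s % 3))
  have XX : ∀ s < 3 * C.length, ∀ s' < 3 * C.length, s < s' → ∀ e < 3, ∀ e' < 3, ∀ r k r' k',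
      mu e (lam r k) = mu e' (lam r' k') → (mu e (lam r k) ≠ 1 → vr C s = vr C s') →
      s / 3 = s' / 3 → dd C v s = dd C v s' → ka C v s e (lam r k) = ka C v s' e' (lam r' k') →
      Cn (toB (m, C)).2.2.1 (m + (3 * s + e)) r k (m + (3 * s' + e')) r' k' := by
    intro s hs s' hs' lt e he e' he' r k r' k' m1 m2 m3 m4 m5
    obtain ⟨c, t, ht, rfl⟩ : ∃ c t, t < 3 ∧ s = 3 * c + t := ⟨s / 3, s % 3, by omega, by omega⟩
    obtain ⟨t', ht', rfl⟩ : ∃ t', t' < 3 ∧ s' = 3 * c + t' := ⟨s' % 3, by omega, by omega⟩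
    by_cases t0 : ty C c = 0
    · obtain ⟨a1, a2, a3, a4⟩ := hA c (by omega) t0
      have hi : Ind (v (vr C (3 * c + t))) (v (vr C (3 * c + t'))) := by
        rcases (by omega : (t = 0 ∧ t' = 1) ∨ (t = 0 ∧ t' = 2) ∨ (t = 1 ∧ t' = 2)) with
          ⟨rfl, rfl⟩ | ⟨rfl, rfl⟩ | ⟨rfl, rfl⟩ <;> assumption
      have m1' : mu e (lam r k) = 1 := by
        by_contra n
        exact one_ne_zero (hi 1 1 ⟨1, 0, by simp⟩ ⟨1, 0, by simp⟩ (by rw [m2 n])).1
      exact sepA (by omega) (by omega) ht' he he' t0 a1 hi m1' (m1 ▸ m1') m5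
    · obtain ⟨u, u0, eu⟩ := hP c (by omega) t0
      simp only [dd, show (3 * c + t) / 3 = c by omega, show (3 * c + t') / 3 = c by omega, if_neg t0,
        ← eu] at m4
      have := Nat.cast_injective (mul_right_cancel₀ (mul_ne_zero (ofReal_ne_zero.2 u0.ne')
        (hv _ (by omega)).2) m4)
      omega
  have E1 : ∀ᶠ T : ℝ in atTop, ∀ β < m + 9 * C.length, Cone (bb m C v T β) ∧ bb m C v T β ≠ 0 := by
    refine evl fun β hβ => ?_
    rcases cls hβ with h1 | ⟨s, hs, e, he, rfl⟩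
    · exact .of_forall fun T => by rw [bb, if_pos h1]; exact h0 _ h1
    by_cases e0 : e = 0
    · subst e0; exact .of_forall fun T => by rw [bU s (by omega)]; exact hv s hs
    have := vr_lt hb hs
    filter_upwards [cone_ev (a := m + 1 + s / 3) (b := vr C s + 1) (by omega) (off C v s +
      (5 - e : ℕ) * v (vr C s) - (2 + 2 * s + e : ℕ) * v (vr C s)), eventually_ge_atTop 0] with T h1 h2
    refine h1 _ _ ((hd s hs).smul (pow_nonneg h2 (m + 1 + C.length + s / 3))) ?_
    simp only [bb, fp, Nat.add_sub_cancel_left, show (3 * s + e) / 3 = s by omega,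
      show (3 * s + e) % 3 = e by omega, show ¬ m + (3 * s + e) < m by omega, if_false, e0]
    push_cast; ring
  have E2 : ∀ᶠ T : ℝ in atTop, ∀ i < m + 9 * C.length, ∀ i' < m + 9 * C.length, ∀ r < 6, ∀ r' < 6,
      ∀ k < 6 * C.length + 6 + 3, ∀ k' < 6 * C.length + 6 + 3, aa m C v T i + lam r k * bb m C v T i =
        aa m C v T i' + lam r' k' * bb m C v T i' → Cn (toB (m, C)).2.2.1 i r k i' r' k' := by
    refine evl fun i hi => evl fun i' hi' => evl fun r _ => evl fun r' _ => evl fun k _ =>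
      evl fun k' _ => ?_
    rcases cls hi with h1 | ⟨s, hs, e, he, h1⟩ <;> rcases cls hi' with h2 | ⟨s', hs', e', he', h2⟩
    · simp only [pW h1, pW h2]
      refine fp_imp h1 h2 (.inl rfl) (.inl rfl) fun _ a _ b => ?_
      obtain rfl := a zero_ne_one
      exact .inl ⟨rfl, lam_inj (mul_right_cancel₀ (h0 _ h1).2 b)⟩
    · simp only [pW h1, pX s' e' he' h2]
      refine fp_imp h1 (vr_lt hb hs') (.inl rfl) (.inr (by omega)) fun c a _ b => ?_
      exact h2 ▸ sepWX (h0 _ h1).2 hs' he' c (a zero_ne_one) b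
    · simp only [pW h2, pX s e he h1]
      refine fp_imp (vr_lt hb hs) h2 (.inr (by omega)) (.inl rfl) fun c a _ b => ?_
      exact h1 ▸ (sepWX (h0 _ h2).2 hs he c.symm (a (c ▸ zero_ne_one)).symm b.symm).symm
    · simp only [pX s e he h1, pX s' e' he' h2]
      refine fp_imp (vr_lt hb hs) (vr_lt hb hs') (.inr (by omega)) (.inr (by omega))
        fun c a d b => ?_
      subst h1 h2
      by_cases es : s = s'
      · subst es; exact sepS (hv s hs).2 hs he he' c b
      by_cases z : mu e (lam r k) = 0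
      · have e0 : e ≠ 0 := by rintro rfl; simp [mu] at z
        have e1 : e' ≠ 0 := by rintro rfl; rw [c] at z; simp [mu] at z
        rw [ka, ka, if_neg e0, if_neg e1, ← c, z, ← a (by simp [z])] at b
        have := Nat.cast_injective (mul_right_cancel₀ (hv s hs).2
          (show ((2 + 2 * s + e : ℕ) : ℂ) * _ = (2 + 2 * s' + e' : ℕ) * _ by linear_combination b))
        omega
      obtain ⟨d1, d2⟩ := d z
      rcases Nat.lt_or_gt_of_ne es with lt | lt
      · exact XX s hs s' hs' lt e he e' he' r k r' k' c a d1 d2 b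
      · exact (XX s' hs' s hs lt e' he' e he r' k' r k c.symm (fun n => (a (c ▸ n)).symm) d1.symm
          d2.symm b.symm).symm
  obtain ⟨T, ⟨e1, e2⟩, T0⟩ := ((E1.and E2).and (eventually_gt_atTop 0)).exists
  refine ⟨aa m C v T, bb m C v T, e1, fun j hj => ?_, fun l hl => ?_, e2⟩ <;> clear E1 E2 XX e1 e2 h
  · rcases memJ.1 hj with ⟨s, hs, h⟩ | ⟨c, hc, t, h⟩
    · rcases h with rfl | rfl | rfl | rfl | rfl <;> dsimp only <;>
      [rw [pW (vr_lt hb hs), pX s 1 (by omega) (by omega)];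
        rw [pW (vr_lt hb hs), pX s 2 (by omega) (by omega)];
        rw [pX s 1 (by omega) (by omega), pX s 2 (by omega) (by omega)];
        rw [pX s 0 (by omega) (by omega), pX s 1 (by omega) (by omega)];
        rw [pX s 0 (by omega) (by omega), pX s 2 (by omega) (by omega)]] <;>
      simp only [fp, mu, ka, if_true, if_false, one_ne_zero, OfNat.ofNat_ne_zero] <;> push_cast <;> ring
    have ha := (hA c hc t).1
    have d0 : 3 * c / 3 = c := by omega
    have d1 : (3 * c + 1) / 3 = c ∧ (3 * c + 1) % 3 = 1 := by omega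
    have d2 : (3 * c + 2) / 3 = c ∧ (3 * c + 2) % 3 = 2 := by omega
    rcases h with rfl | rfl | rfl <;> dsimp only <;>
      [rw [pX (3 * c) 0 (by omega) (by omega), pX (3 * c + 1) 0 (by omega) (by omega)];
        rw [pX (3 * c) 0 (by omega) (by omega), pX (3 * c + 2) 0 (by omega) (by omega)];
        rw [pX (3 * c + 1) 0 (by omega) (by omega), pX (3 * c + 2) 0 (by omega) (by omega)]] <;>
      simp only [fp, mu, ka, off, dd, d0, d1, d2, t, Nat.mul_mod_right, if_true, if_false,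
        one_ne_zero, OfNat.ofNat_ne_zero] <;> push_cast
    exacts [by ring, by ring, by linear_combination ha]
  · obtain ⟨c, hc, t, rfl⟩ := memK.1 hl
    obtain ⟨u, u0, eu⟩ := hP c hc t
    have d0 : 3 * c / 3 = c := by omega
    have d1 : (3 * c + 1) / 3 = c ∧ (3 * c + 1) % 3 = 1 := by omega
    refine ⟨T ^ (m + 1 + C.length + c), T ^ (m + 1 + C.length + c) * u, by positivity, by positivity,
      ?_, ?_⟩ <;> dsimp only
    · rw [pX (3 * c) 0 (by omega) (by omega), ← one_mul (bb m C v T (m + 9 * c + 3)),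
        pX (3 * c + 1) 0 (by omega) (by omega), bU (3 * c) (by omega)]
      simp only [fp, mu, ka, off, dd, d0, d1, t, toB, Nat.mul_mod_right, if_true, if_false,
        one_ne_zero]
      push_cast; ring
    · rw [bU (β := m + 9 * c) (3 * c) (by omega), bU (3 * c + 1) (by omega)]
      push_cast; linear_combination (T : ℂ) ^ (m + 1 + C.length + c) * eu

end Pool.Agent.H38.Ang
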