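import Pool.Agent.H38.Ang.Geo
import Pool.Agent.H38.ER.Strong3

/-!
Rigid pieces of the triangular lattice, joints and links: what a drawing forces.
-/

namespace Pool.Agent.H38.Ang

open Complex ComplexConjugate Pool.Agent.H38.NP Pool.Agent.H38.ER

def Dr (p : ℕ × List (ℕ × ℕ)) (x : ℕ → ℂ) : Prop := (∀ u < p.1, ∀ v < p.1, u ≠ v → x u ≠ x v) ∧
  ∀ u v w, Adj p.2 u v → Adj p.2 u w → v ≠ w → G (x v - x u) (x w - x u)

theorem Adj.symm {E u v} (h : Adj E u v) : Adj E v u := Or.symm h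

theorem IsGraph.adj {p u v} (h : IsGraph p) (a : Adj p.2 u v) : u < p.1 ∧ v < p.1 ∧ u ≠ v := by
  rcases a with a | a <;> have := h _ a <;> simp only at this <;> omega

theorem ar_iff {p} (h : IsGraph p) : HasAR (Real.pi / 3) p ↔ ∃ x, Dr p x := by
  refine exists_congr fun x => and_congr_right fun hx => forall₃_congr fun u v w =>
    forall₃_congr fun a b _ => angle_iff ?_ ?_
  · obtain ⟨a1, a2, a3⟩ := h.adj a; exact sub_ne_zero.2 (hx _ a2 _ a1 a3.symm)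
  · obtain ⟨a1, a2, a3⟩ := h.adj b; exact sub_ne_zero.2 (hx _ a2 _ a1 a3.symm)

variable {p : ℕ × List (ℕ × ℕ)} {x : ℕ → ℂ}

theorem Dr.ne (h : Dr p x) (g : IsGraph p) {u v} (a : Adj p.2 u v) : x v - x u ≠ 0 :=
  let ⟨a1, a2, a3⟩ := g.adj a; sub_ne_zero.2 (h.1 _ a2 _ a1 a3.symm)

theorem Dr.tri (h : Dr p x) (g : IsGraph p) {u v w} (a : Adj p.2 u v) (b : Adj p.2 u w)
    (c : Adj p.2 v w) : (x w - x u) ^ 2 - (x v - x u) * (x w - x u) + (x v - x u) ^ 2 = 0 := by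
  refine Ang.tri (h.ne g a) (h.2 _ _ _ a b (g.adj c).2.2) ?_ ?_
  · convert h.2 _ _ _ a.symm c (g.adj b).2.2 using 1 <;> ring
  · convert h.2 _ _ _ b.symm c.symm (g.adj a).2.2 using 1 <;> ring

theorem Dr.rh (h : Dr p x) (g : IsGraph p) {u v w z} (a : Adj p.2 u v) (b : Adj p.2 u w)
    (c : Adj p.2 v w) (d : Adj p.2 v z) (e : Adj p.2 w z) (n : u ≠ z) :
    x z = x v + x w - x u := by
  have h1 := h.tri g c a.symm b.symm
  have h2 := h.tri g c d e
  have := sub_ne_zero.2 (h.1 _ (g.adj a).1 _ (g.adj d).2.1 n)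
  exact mul_left_cancel₀ this (by linear_combination h1 - h2)

def vid (L i r k : ℕ) : ℕ := (i * 6 + r) * (L + 3) + k

theorem vid_inj {L i r k i' r' k'} (hr : r < 6) (hr' : r' < 6) (hk : k < L + 3) (hk' : k' < L + 3) :
    vid L i r k = vid L i' r' k' ↔ i = i' ∧ r = r' ∧ k = k' := by
  refine ⟨fun h => ?_, by rintro ⟨rfl, rfl, rfl⟩; rfl⟩
  have a := congrArg (· / (L + 3)) h
  have b := congrArg (· % (L + 3)) h
  simp only [vid, mul_comm _ (L + 3), Nat.mul_add_div (show L + 3 > 0 by omega), Nat.mul_add_mod,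
    Nat.div_eq_of_lt hk, Nat.div_eq_of_lt hk', Nat.mod_eq_of_lt hk, Nat.mod_eq_of_lt hk'] at a b
  omega

theorem vid_lt {L n i r k} (hi : i < n) (hr : r < 6) (hk : k < L + 3) :
    vid L i r k < n * 6 * (L + 3) := by
  have : (i * 6 + r + 1) * (L + 3) ≤ n * 6 * (L + 3) := Nat.mul_le_mul_right _ (by omega)
  unfold vid; linarith

def core (L : ℕ) : List Q4 := ((List.range (L + 2)).flatMap fun k =>
  [(3, k, 3, k + 1), (4, k, 4, k + 1), (3, k, 4, k), (3, k + 1, 4, k),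
    (0, k, 0, k + 1), (1, k, 1, k + 1), (0, k, 1, k), (0, k + 1, 1, k)]) ++
  [(2, 1, 3, 1), (2, 1, 3, 0), (2, 1, 1, 1), (2, 1, 1, 2), (2, 2, 3, 2), (2, 2, 3, 1), (2, 2, 1, 2),
    (2, 2, 1, 3), (2, L + 1, 3, L + 1), (2, L + 1, 3, L), (2, L + 1, 1, L + 1), (2, L + 1, 1, L + 2),
    (2, 1, 2, 2), (5, 0, 4, 0), (5, 0, 4, 1), (0, L + 2, 1, L + 2)]

abbrev BI := ℕ × ℕ × List Q4 × List (ℕ × ℕ × Bool)

def edB (p : BI) : List (ℕ × ℕ) :=
  ((List.range p.1).flatMap fun i => (core p.2.1).map fun e =>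
    (vid p.2.1 i e.1 e.2.1, vid p.2.1 i e.2.2.1 e.2.2.2)) ++
  (p.2.2.1.flatMap fun j => [(vid p.2.1 j.1 2 j.2.1, vid p.2.1 j.1 3 j.2.1),
    (vid p.2.1 j.1 2 j.2.1, vid p.2.1 j.1 3 (j.2.1 - 1)),
    (vid p.2.1 j.1 2 j.2.1, vid p.2.1 j.2.2.1 1 j.2.2.2),
    (vid p.2.1 j.1 2 j.2.1, vid p.2.1 j.2.2.1 1 (j.2.2.2 + 1))]) ++
  p.2.2.2.map fun l => (cond l.2.2 (vid p.2.1 l.1 4 1) (vid p.2.1 l.1 2 (p.2.1 + 1)),
    vid p.2.1 l.2.1 2 1)

def grB (p : BI) : ℕ × List (ℕ × ℕ) := (p.1 * 6 * (p.2.1 + 3), edB p)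

def BdB (p : BI) : Prop := 3 ≤ p.2.1 ∧ (∀ j ∈ p.2.2.1, j.1 < p.1 ∧ j.2.2.1 < p.1 ∧ 3 ≤ j.2.1 ∧
  j.2.1 ≤ p.2.1 ∧ 3 ≤ j.2.2.2 ∧ j.2.2.2 ≤ p.2.1) ∧ ∀ l ∈ p.2.2.2, l.1 < p.1 ∧ l.2.1 < p.1 ∧ l.1 ≠ l.2.1

theorem grB_graph {p : BI} (h : BdB p) : IsGraph (grB p) := by
  obtain ⟨n, L, J, K⟩ := p
  obtain ⟨h1, h2, h3⟩ := h
  simp only [IsGraph, grB, edB, core, List.forall_mem_append, List.forall_mem_flatMap,
    List.forall_mem_map, List.forall_mem_cons, List.mem_range] at *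
  refine ⟨⟨fun i hi => ⟨fun k hk => ?_, ?_⟩, fun j hj => ?_⟩, fun l hl => ?_⟩
  · simp (disch := omega) [vid_lt, vid_inj]
  · simp (disch := omega) [vid_lt, vid_inj]
  · have := h2 j hj; simp (disch := omega) [vid_lt, vid_inj]
  · have := h3 l hl; cases l.2.2 <;> simp (disch := omega) [vid_lt, vid_inj]; omega

def WB (p : BI) : Prop := ∃ a b : ℕ → ℂ, (∀ i < p.1, b i ≠ 0) ∧
  (∀ j ∈ p.2.2.1, a j.1 + j.2.1 * b j.1 = a j.2.2.1 + j.2.2.2 * b j.2.2.1) ∧
    ∀ l ∈ p.2.2.2, (b l.2.1 * conj (b l.1)).im = 0 ↔ l.2.2 = false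

theorem strip (h : Dr p x) (g : IsGraph p) {f f' : ℕ → ℕ} {K k0 : ℕ} {a b c : ℂ}
    (e : ∀ k < K, Adj p.2 (f k) (f (k + 1)) ∧ Adj p.2 (f' k) (f' (k + 1)) ∧
      Adj p.2 (f k) (f' k) ∧ Adj p.2 (f (k + 1)) (f' k))
    (n : ∀ k, k + 1 < K → f k ≠ f' (k + 1) ∧ f' k ≠ f (k + 2)) (h0 : x (f k0) = a + k0 * b)
    (h1 : x (f (k0 + 1)) = a + (k0 + 1) * b) (h2 : x (f' k0) = a + k0 * b + c) :
    ∀ k, k0 ≤ k → k < K → x (f k) = a + k * b ∧ x (f (k + 1)) = a + (k + 1) * b ∧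
      x (f' k) = a + k * b + c := by
  intro k hk
  induction k, hk using Nat.le_induction with
  | base => exact fun _ => ⟨h0, h1, h2⟩
  | succ k _ ih =>
    intro hk
    obtain ⟨i1, i2, i3⟩ := ih (by omega)
    obtain ⟨a1, a2, a3, a4⟩ := e k (by omega)
    obtain ⟨b1, -, b3, b4⟩ := e (k + 1) hk
    have r1 := h.rh g a3 a1 a4.symm a2 b3 (n k hk).1
    have r2 := h.rh g a4.symm a2 b3 b1 b4.symm (n k hk).2
    push_cast
    exact ⟨i2, by linear_combination r2 + r1 + 2 * i2 - i1, by linear_combination r1 + i2 + i3 - i1⟩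

theorem rigid (h : Dr p x) (g : IsGraph p) {L i : ℕ} (hL : 3 ≤ L)
    (e : ∀ q ∈ core L, Adj p.2 (vid L i q.1 q.2.1) (vid L i q.2.2.1 q.2.2.2)) :
    ∃ a b c : ℂ, b ≠ 0 ∧ c ^ 2 - b * c + b ^ 2 = 0 ∧
      (∀ k, 1 ≤ k → k ≤ L + 1 → ∀ t, t ≠ vid L i 4 (k - 1) → Adj p.2 t (vid L i 3 k) →
        Adj p.2 t (vid L i 3 (k - 1)) → x t = a + k * b) ∧
      (∀ k, 1 ≤ k → k ≤ L → ∀ t, t ≠ vid L i 0 (k + 1) → Adj p.2 t (vid L i 1 k) →
        Adj p.2 t (vid L i 1 (k + 1)) → x t = a + k * b) ∧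
      (∀ t, (∀ r < 6, ∀ k < L + 3, r ≠ 2 → t ≠ vid L i r k) →
        Adj p.2 (vid L i 2 1) t → ((x t - x (vid L i 2 1)) * conj b).im = 0) ∧
      (∀ t, (∀ r < 6, ∀ k < L + 3, r ≠ 2 → t ≠ vid L i r k) → Adj p.2 (vid L i 2 (L + 1)) t →
        ((x t - x (vid L i 2 (L + 1))) * conj b).im = 0) ∧
      (∀ t, (∀ r < 6, ∀ k < L + 3, r ≠ 2 → t ≠ vid L i r k) → Adj p.2 (vid L i 4 1) t →
        ((x t - x (vid L i 4 1)) * conj c).im = 0) := by
  simp only [core, List.forall_mem_append, List.forall_mem_flatMap, List.forall_mem_cons,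
    List.mem_range] at e
  obtain ⟨e, e1, e2, e3, e4, e5, e6, e7, e8, e9, e10, e11, e12, e13, e14, e15, e16, -⟩ := e
  obtain ⟨b, hb⟩ : ∃ b, b = x (vid L i 3 1) - x (vid L i 3 0) := ⟨_, rfl⟩
  obtain ⟨c, hc⟩ : ∃ c, c = x (vid L i 4 0) - x (vid L i 3 0) := ⟨_, rfl⟩
  obtain ⟨a, ha⟩ : ∃ a, a = x (vid L i 3 0) - c := ⟨_, rfl⟩
  have b0 : b ≠ 0 := hb ▸ h.ne g (e 0 (by omega)).1
  have q : c ^ 2 - b * c + b ^ 2 = 0 := by
    rw [hb, hc]; exact h.tri g (e 0 (by omega)).1 (e 0 (by omega)).2.2.1 (e 0 (by omega)).2.2.2.1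
  have U := strip h g (f := vid L i 3) (f' := vid L i 4) (K := L + 2) (k0 := 0) (a := a + c) (b := b)
    (c := c) (fun k hk => ⟨(e k hk).1, (e k hk).2.1, (e k hk).2.2.1, (e k hk).2.2.2.1⟩)
    (fun k hk => by simp (disch := omega) [vid_inj]) (by simp [ha]) (by simp [ha, hb])
    (by simp [ha, hc])
  have up : ∀ k, 1 ≤ k → k ≤ L + 1 → ∀ t, t ≠ vid L i 4 (k - 1) → Adj p.2 t (vid L i 3 k) →
      Adj p.2 t (vid L i 3 (k - 1)) → x t = a + k * b := by
    rintro (_ | k) h1 h2 t n a1 a2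
    · omega
    obtain ⟨b1, -, b3, b4, -⟩ := e k (by omega)
    obtain ⟨c1, c2, c3⟩ := U k (by omega) (by omega)
    have := h.rh g b3.symm b4.symm b1 a2.symm a1.symm n.symm
    push_cast; linear_combination this + c1 + c2 - c3
  have p1 := up 1 (by omega) (by omega) _ (by simp (disch := omega) [vid_inj]) e1 e2
  have p2 := up 2 (by omega) (by omega) _ (by simp (disch := omega) [vid_inj]) e5 e6
  have p3 := up (L + 1) (by omega) (by omega) _ (by simp (disch := omega) [vid_inj]) e9 e10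
  obtain ⟨u0, u1, u2⟩ := U 0 (by omega) (by omega)
  obtain ⟨-, u3, u4⟩ := U 1 (by omega) (by omega)
  obtain ⟨-, -, u5⟩ := U 2 (by omega) (by omega)
  obtain ⟨u6, u7, -⟩ := U L (by omega) (by omega)
  obtain ⟨-, -, -, -, -, f1, -, f2, -⟩ := e 1 (by omega)
  obtain ⟨-, -, -, -, -, f3, f4, f5, -⟩ := e 2 (by omega)
  obtain ⟨-, -, -, -, -, -, f6, -⟩ := e 3 (by omega)
  have l2 := h.rh g e1.symm e6.symm e13 e4 e7 (by simp (disch := omega) [vid_inj])
  have l1 := h.rh g e13.symm e7 e4 e3 f1.symm (by simp (disch := omega) [vid_inj])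
  have l3 := h.rh g e13 e4 e7 e8 f3 (by simp (disch := omega) [vid_inj])
  have m2 := h.rh g e3 e4 f1 f2.symm f4.symm (by simp (disch := omega) [vid_inj])
  have m3 := h.rh g e7 e8 f3 f5.symm f6.symm (by simp (disch := omega) [vid_inj])
  have t5 := h.rh g (e 0 (by omega)).2.2.2.1 (e 1 (by omega)).2.2.1 (e 0 (by omega)).2.1
    e14.symm e15.symm (by simp (disch := omega) [vid_inj])
  push_cast at p1 p2 p3 u0 u1 u2 u3 u4 u5
  have D := strip h g (f := vid L i 0) (f' := vid L i 1) (K := L + 2) (k0 := 2) (a := a - 2 * c)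
    (b := b) (c := c) (fun k hk => ⟨(e k hk).2.2.2.2.1, (e k hk).2.2.2.2.2.1,
      (e k hk).2.2.2.2.2.2.1, (e k hk).2.2.2.2.2.2.2.1⟩)
    (fun k hk => by simp (disch := omega) [vid_inj])
    (by push_cast; linear_combination m2 + l1 + 2 * l2 + 2 * p1 + p2 - 2 * u1)
    (by push_cast; linear_combination m3 + l3 + 2 * l2 + p1 + 2 * p2 - 2 * u1)
    (by push_cast; linear_combination l2 + p1 + p2 - u1)
  have D1 : ∀ k, 1 ≤ k → k ≤ L + 2 → x (vid L i 1 k) = a + k * b - c := fun k h1 h2 => by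
    rcases (by omega : k = 1 ∨ k = L + 2 ∨ (2 ≤ k ∧ k < L + 2)) with rfl | rfl | ⟨h1, h2⟩
    · push_cast; linear_combination l1 + l2 + 2 * p1 - u1
    · obtain ⟨-, -, -, -, f1, f2, f3, f4, -⟩ := e (L + 1) (by omega)
      obtain ⟨d1, d2, d3⟩ := D (L + 1) (by omega) (by omega)
      have := h.rh g f3 f1 f4.symm f2 e16 (by simp (disch := omega) [vid_inj])
      push_cast at d1 d2 d3 ⊢
      linear_combination this + d2 + d3 - d1
    · linear_combination (D k h1 h2).2.2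
  have nv : ∀ {t r k}, (∀ r < 6, ∀ k < L + 3, r ≠ 2 → t ≠ vid L i r k) → r < 6 → k < L + 3 → r ≠ 2 →
    t ≠ vid L i r k := fun h a b c => h _ a _ b c
  have d1 := D1 1 (by omega) (by omega)
  have d2 := D1 2 (by omega) (by omega)
  have d3 := D1 (L + 1) (by omega) (by omega)
  have d4 := D1 (L + 2) (by omega) (by omega)
  push_cast at d1 d2 d3 d4
  refine ⟨a, b, c, b0, q, up, fun k h1 h2 t n a1 a2 => ?_, fun t n a1 => fan b0 q ?_ ?_ ?_ ?_,
    fun t n a1 => fan b0 q ?_ ?_ ?_ ?_, fun t n a1 => fan (c := c - b) (fun e => ?_)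
      (by linear_combination q) ?_ ?_ ?_ ?_⟩
  · obtain ⟨-, -, -, -, -, f1, -, f2, -⟩ := e k (by omega)
    obtain ⟨-, -, -, -, -, -, f3, -⟩ := e (k + 1) (by omega)
    have := h.rh g f2 f3 f1 a1.symm a2.symm n.symm
    have c1 := D1 k h1 (by omega)
    have c2 := D1 (k + 1) (by omega) (by omega)
    have c3 := (D (k + 1) (by omega) (by omega)).1
    push_cast at c2 c3
    linear_combination this + c1 + c2 - c3
  · convert h.2 _ _ _ a1 e1 (nv n (by omega) (by omega) (by omega)) using 1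
    linear_combination p1 - u1
  · convert h.2 _ _ _ a1 e2 (nv n (by omega) (by omega) (by omega)) using 1
    linear_combination p1 - u0
  · convert h.2 _ _ _ a1 e3 (nv n (by omega) (by omega) (by omega)) using 1
    linear_combination p1 - d1
  · convert h.2 _ _ _ a1 e4 (nv n (by omega) (by omega) (by omega)) using 1
    linear_combination p1 - d2
  · convert h.2 _ _ _ a1 e9 (nv n (by omega) (by omega) (by omega)) using 1
    linear_combination p3 - u7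
  · convert h.2 _ _ _ a1 e10 (nv n (by omega) (by omega) (by omega)) using 1
    linear_combination p3 - u6
  · convert h.2 _ _ _ a1 e11 (nv n (by omega) (by omega) (by omega)) using 1
    linear_combination p3 - d3
  · convert h.2 _ _ _ a1 e12 (nv n (by omega) (by omega) (by omega)) using 1
    linear_combination p3 - d4
  · rw [e] at q; exact b0 (by simpa using q)
  · convert h.2 _ _ _ a1 e15.symm (nv n (by omega) (by omega) (by omega)) using 1
    linear_combination u1 - u2 - t5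
  · convert h.2 _ _ _ a1 (e 0 (by omega)).2.1.symm (nv n (by omega) (by omega) (by omega)) using 1
    linear_combination u4 - u2
  · convert h.2 _ _ _ a1 (e 1 (by omega)).2.2.2.1.symm (nv n (by omega) (by omega) (by omega))
      using 1
    linear_combination u4 - u3
  · convert h.2 _ _ _ a1 (e 1 (by omega)).2.1 (nv n (by omega) (by omega) (by omega)) using 1
    linear_combination u4 - u5

theorem grB_s {p : BI} (hb : BdB p) {x} (h : Dr (grB p) x) : WB p := by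
  have g := grB_graph hb
  obtain ⟨n, L, J, K⟩ := p
  obtain ⟨h1, h2, h3⟩ := hb
  simp only at h1 h2 h3
  have m1 : ∀ i < n, ∀ q ∈ core L, Adj (grB (n, L, J, K)).2 (vid L i q.1 q.2.1)
      (vid L i q.2.2.1 q.2.2.2) := fun i hi q hq => .inl (by
    simp only [grB, edB, List.mem_append, List.mem_flatMap, List.mem_map, List.mem_range]
    exact .inl (.inl ⟨i, hi, q, hq, rfl⟩))
  choose! a b c b0 q up dn f1 f2 f3 using fun i hi => rigid h g h1 (m1 i hi)
  refine ⟨a, b, b0, fun j hj => ?_, fun l hl => ?_⟩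
  · obtain ⟨j1, j2, j3, j4, j5, j6⟩ := h2 j hj
    have m : ∀ e ∈ (_ : List (ℕ × ℕ)), Adj (grB (n, L, J, K)).2 e.1 e.2 := fun e he => .inl (by
      simp only [grB, edB, List.mem_append, List.mem_flatMap]
      exact .inl (.inr ⟨j, hj, he⟩))
    simp only [List.forall_mem_cons] at m
    obtain ⟨m1, m2, m3, m4, -⟩ := m
    rw [← up _ j1 _ (by omega) (by omega) _ (by simp (disch := omega) [vid_inj]) m1 m2,
      ← dn _ j2 _ (by omega) (by omega) _ (by simp (disch := omega) [vid_inj]) m3 m4]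
  · obtain ⟨l1, l2, l3⟩ := h3 l hl
    have m : Adj (grB (n, L, J, K)).2 (cond l.2.2 (vid L l.1 4 1) (vid L l.1 2 (L + 1)))
        (vid L l.2.1 2 1) := .inl (by
      simp only [grB, edB, List.mem_append, List.mem_map]
      exact .inr ⟨l, hl, rfl⟩)
    have d0 := h.ne g m
    have n2 : ∀ r < 6, ∀ k < L + 3, r ≠ 2 → vid L l.2.1 2 1 ≠ vid L l.1 r k := fun r hr k hk h => by
      simp (disch := omega) [vid_inj]; omega
    obtain ⟨s, hs⟩ := par_of (b0 _ l2) (f1 _ l2 _ (fun r hr k hk h => by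
      cases l.2.2 <;> simp (disch := omega) [vid_inj] <;> omega) m.symm)
    have s0 : s ≠ 0 := by
      rintro rfl; exact d0 (by linear_combination -hs + (by simp : ((0 : ℝ) : ℂ) * b l.2.1 = 0) * -1)
    have k : ∀ z, ((x (vid L l.2.1 2 1) - x (cond l.2.2 (vid L l.1 4 1) (vid L l.1 2 (L + 1)))) *
        conj z).im = 0 → (b l.2.1 * conj z).im = 0 := fun z hz => by
      rw [← neg_sub, hs] at hz
      simpa [mul_assoc, s0] using hz
    revert m k
    cases l.2.2 <;> intro m k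
    · exact iff_of_true (k _ (f2 _ l1 _ n2 m)) rfl
    · refine iff_of_false (fun e => eq_im (b0 _ l1) (q _ l1) ?_) (by simp)
      have c0 : c l.1 ≠ 0 := fun e => b0 _ l1 (by simpa [e] using q _ l1)
      obtain ⟨u, hu⟩ := par_of c0 (k _ (f3 _ l1 _ n2 m))
      have u0 : u ≠ 0 := by rintro rfl; exact b0 _ l2 (by simpa using hu)
      rw [hu] at e
      simpa [mul_assoc, u0] using e

end Pool.Agent.H38.Ang
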