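import Pool.Agent.H38.Ang.LvA4

/-!
From polynomial systems to systems of vector sums and directions.
-/

namespace Pool.Agent.H38.Ang

open Complex ComplexConjugate Pool.Agent.H38.NP Pool.Agent.H38.ER Filter MeasureTheory

def SA0 (p : ℕ × List Q4) : Prop := ∃ v : ℕ → ℂ, (∀ i < p.1, Cone (v i) ∧ v i ≠ 0) ∧ ∀ q ∈ p.2,
  (q.2.2.2 = 0 → v q.1 + v q.2.1 = v q.2.2.1) ∧
  (q.2.2.2 ≠ 0 → ∃ t : ℝ, 0 < t ∧ t * v q.2.1 = cond (decide (q.2.2.2 = 2)) ω 1 * v q.1)

def rnd (p : ℕ × List Q4) : ℕ × List Q4 := (p.1 + (1 + 2 * p.2.length),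
  (List.range p.2.length).flatMap fun c => if (p.2.getD c (0, 0, 0, 0)).2.2.2 = 0 then
    [((p.2.getD c (0, 0, 0, 0)).1, p.1, p.1 + (1 + 2 * c), 0),
      ((p.2.getD c (0, 0, 0, 0)).2.2.1, p.1, p.1 + (2 + 2 * c), 0),
      (p.1 + (1 + 2 * c), (p.2.getD c (0, 0, 0, 0)).2.1, p.1 + (2 + 2 * c), 0)]
    else [p.2.getD c (0, 0, 0, 0)])

theorem ind_ev (A B A' B' : ℂ) (h : A * B' ≠ A' * B) :
    ∀ᵐ t : ℝ, Ind (A + t * B) (A' + t * B') := by
  have : ∀ z z' : ℂ, ∀ᵐ t : ℝ, z * (A + t * B) = z' * (A' + t * B') →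
      z = 0 ∧ z' = 0 := fun z z' => by
    by_cases e : z = 0 ∧ z' = 0
    · exact .of_forall fun _ _ => e
    refine (ae_iff.2 ((eventually_cofinite.1 (lin_ev (a := z * A - z' * A') (b := z * B - z' * B')
      (by grind))).measure_zero _)).mono fun t k k' => (k (by linear_combination k')).elim
  refine (eventually_countable_forall.2 fun z : ℤ × ℤ × ℤ × ℤ =>
    this (z.1 + z.2.1 * ω) (z.2.2.1 + z.2.2.2 * ω)).mono ?_
  rintro t k _ _ ⟨a, b, rfl⟩ ⟨c, d, rfl⟩
  exact k (a, b, c, d)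

theorem cone_pos {z : ℂ} (h : Cone z) {t : ℝ} (ht : 0 < t) : Cone (z + t) ∧ z + t ≠ 0 := by
  obtain ⟨a, b, ha, hb, rfl⟩ := h
  refine ⟨⟨a + t, b, by linarith, hb, by push_cast; ring⟩, fun e => ?_⟩
  have := (lat_inj (k := a + t) (r := b) (k' := 0) (r' := 0) (by
    push_cast; linear_combination e)).1
  linarith

variable {m : ℕ} {C : List Q4}

theorem rnd_bd (h : BdA (m, C)) : BdA (rnd (m, C)) := by
  simp only [BdA, rnd, List.forall_mem_flatMap, List.mem_range] at *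
  intro c hc
  have := h _ (getD_mem hc)
  split_ifs <;> simp only [List.forall_mem_cons, List.not_mem_nil, false_imp_iff, implies_true,
    and_true] <;> omega

theorem rnd_s (h : WA (rnd (m, C))) : WA (m, C) := by
  obtain ⟨v, h0, h⟩ := h
  simp only [rnd, List.forall_mem_flatMap, List.mem_range] at h0 h
  refine ⟨v, fun i hi => h0 i (by simp only at hi; omega), fun q hq => ?_⟩
  obtain ⟨c, hc, rfl⟩ := List.getElem_of_mem hq
  have := h c hc
  rw [List.getD_eq_getElem _ _ hc] at this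
  split_ifs at this with t
  · simp only [List.forall_mem_cons] at this
    exact ⟨fun _ => by
      linear_combination this.1.1 trivial - this.2.1.1 trivial + this.2.2.1.1 trivial, fun n => (n t).elim⟩
  · exact this _ (.head _)

theorem rnd_c (hb : BdA (m, C)) (h : SA0 (m, C)) : SA (rnd (m, C)) := by
  obtain ⟨v, h0, h⟩ := h
  simp only [BdA] at hb h0 h
  have E : ∀ᵐ t : ℝ, ∀ c < C.length, ∀ q, q = C.getD c (0, 0, 0, 0) → q.2.2.2 = 0 →
      (Ind (v q.1) t ∧ Ind (v q.1) (v q.1 + t) ∧ Ind t (v q.1 + t)) ∧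
      (Ind (v q.2.2.1) t ∧ Ind (v q.2.2.1) (v q.2.2.1 + t) ∧ Ind t (v q.2.2.1 + t)) ∧
      Ind (v q.1 + t) (v q.2.1) ∧ Ind (v q.1 + t) (v q.2.2.1 + t) ∧ Ind (v q.2.1) (v q.2.2.1 + t) := by
    refine (eventually_all_finite (Set.finite_lt_nat _)).2 fun c hc => ?_
    have hq := getD_mem hc
    simp only [forall_eq]
    generalize C.getD c (0, 0, 0, 0) = q at hq
    by_cases t : q.2.2.2 = 0
    swap; · simp [t]
    obtain ⟨b1, b2, b3⟩ := hb q hq
    have n1 := (h0 _ b1).2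
    have n2 := (h0 _ b2).2
    have n3 := (h0 _ b3).2
    have e := (h q hq).1 t
    have k : ∀ z : ℂ, z ≠ 0 → ∀ᵐ t : ℝ, Ind z t ∧ Ind z (z + t) ∧ Ind t (z + t) :=
      fun z hz => by
        simpa using (ind_ev z 0 0 1 (by simpa)).and ((ind_ev z 0 z 1 (by simpa)).and
          (ind_ev 0 1 z 1 (by simpa using hz.symm)))
    filter_upwards [k _ n1, k _ n3, ind_ev (v q.1) 1 (v q.2.1) 0 (by simpa using n2.symm),
      ind_ev (v q.1) 1 (v q.2.2.1) 1 (by grind), ind_ev (v q.2.1) 0 (v q.2.2.1) 1 (by simpa)]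
      with t a1 a2 a3 a4 a5 _
    exact ⟨a1, a2, by simpa using a3, by simpa using a4, by simpa using a5⟩
  obtain ⟨t, t0, E⟩ := Measure.exists_mem_of_measure_ne_zero_of_ae (s := Set.Ioi 0) (by simp)
    (ae_restrict_of_ae E)
  let w : ℕ → ℂ := fun j => if j < m then v j else if j = m then t else
    if (j - m) % 2 = 1 then v (C.getD ((j - m - 1) / 2) (0, 0, 0, 0)).1 + t
    else v (C.getD ((j - m - 1) / 2) (0, 0, 0, 0)).2.2.1 + t
  have w1 : ∀ j < m, w j = v j := fun j hj => if_pos hj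
  have w2 : w m = t := by simp [w]
  have w3 : ∀ c, w (m + (1 + 2 * c)) = v (C.getD c (0, 0, 0, 0)).1 + t := fun c => by simp [w]
  have w4 : ∀ c, w (m + (2 + 2 * c)) = v (C.getD c (0, 0, 0, 0)).2.2.1 + t := fun c => by
    simp [w, show (1 + 2 * c) / 2 = c by omega]
  refine ⟨w, fun j hj => ?_, ?_⟩
  · simp only [rnd] at hj
    rcases (by omega : j < m ∨ j = m ∨ ((j - m - 1) / 2 < C.length ∧
      (j = m + (1 + 2 * ((j - m - 1) / 2)) ∨ j = m + (2 + 2 * ((j - m - 1) / 2))))) with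
      a | rfl | ⟨a, b | b⟩
    · rw [w1 j a]; exact h0 j a
    · simpa [w2] using cone_pos ⟨0, 0, le_rfl, le_rfl, rfl⟩ t0
    · rw [b, w3]; exact cone_pos (h0 _ (hb _ (getD_mem a)).1).1 t0
    · rw [b, w4]; exact cone_pos (h0 _ (hb _ (getD_mem a)).2.2).1 t0
  · simp only [rnd, List.forall_mem_flatMap, List.mem_range]
    intro c hc
    obtain ⟨b1, b2, b3⟩ := hb _ (getD_mem hc)
    have := h _ (getD_mem hc)
    split_ifs with s
    · obtain ⟨a1, a2, a3⟩ := E c hc _ rfl s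
      simp only [List.forall_mem_cons, w1 _ b1, w1 _ b2, w1 _ b3, w2, w3, w4, ne_eq,
        not_true, false_imp_iff, and_true, true_imp_iff, true_and, List.not_mem_nil, implies_true]
      exact ⟨a1, a2, by linear_combination this.1 s, a3⟩
    · simp only [List.mem_singleton, forall_eq, w1 _ b1, w1 _ b2]
      exact ⟨fun n => (s n).elim, this.2⟩

end Pool.Agent.H38.Ang
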